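import Pool.Agent.H829C.Win

/-!
# Contacts at all large scales
-/

set_option autoImplicit false

namespace Pool.Agent.H829C

open Finset H726.GD
open scoped Classical

/-- contacts at index distance more than `m` -/
noncomputable def FL (m : ℕ) (v : List (Fin 3 → ℤ)) : Finset ((Fin 3 → ℤ) × (Fin 3 → ℤ)) :=
  (v.toFinset ×ˢ v.toFinset).filter (fun x => ∃ i j : ℕ, i + m < j ∧
    v[i]? = some x.1 ∧ v[j]? = some x.2 ∧ Adj x.1 x.2)

theorem FL_le {m n : ℕ} (hm : 1 ≤ m) {v : List (Fin 3 → ℤ)} (hv : v.length = n + 1) :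
    (FL m v).card ≤ ∑ l ∈ Finset.range n, (FS (2 ^ l * m) v).card := by
  have hsub : FL m v ⊆ (Finset.range n).biUnion (fun l => FS (2 ^ l * m) v) := by
    rintro ⟨x, y⟩ h
    unfold FL at h
    rw [Finset.mem_filter] at h
    obtain ⟨h0, i, j, h1, hx, hy, hxy⟩ := h
    simp only at hx hy hxy
    have hjn : j < n + 1 := by
      by_contra hc
      rw [List.getElem?_eq_none (by omega)] at hy
      exact absurd hy (by simp)
    have hex : ∃ l, j ≤ i + 2 ^ (l + 1) * m := by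
      refine ⟨n, ?_⟩
      have h2 : n < 2 ^ n := Nat.lt_two_pow_self
      have h3 : 2 ^ n ≤ 2 ^ (n + 1) := Nat.pow_le_pow_right (by norm_num) (by omega)
      have h4 : 2 ^ (n + 1) * 1 ≤ 2 ^ (n + 1) * m := Nat.mul_le_mul_left _ hm
      omega
    have hl1 := Nat.find_spec hex
    obtain ⟨l, hl⟩ : ∃ l, l = Nat.find hex := ⟨_, rfl⟩
    rw [← hl] at hl1
    have hl2 : i + 2 ^ l * m < j := by
      rcases l with _ | l
      · simpa using h1
      · have := Nat.find_min hex (m := l) (by omega)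
        omega
    have hln : l < n := by
      by_contra hc
      push Not at hc
      have h2 : l < 2 ^ l := Nat.lt_two_pow_self
      have h4 : 2 ^ l * 1 ≤ 2 ^ l * m := Nat.mul_le_mul_left _ hm
      omega
    rw [Finset.mem_biUnion]
    refine ⟨l, Finset.mem_range.2 hln, ?_⟩
    unfold FS
    rw [Finset.mem_filter]
    refine ⟨h0, i, j, hl2, ?_, hx, hy, hxy⟩
    have : 2 ^ (l + 1) * m = 2 * (2 ^ l * m) := by ring
    omega
  exact (Finset.card_le_card hsub).trans Finset.card_biUnion_le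

/-- the terms of the dyadic sum -/
theorem term_bound {K : ℝ} (hK : 1 ≤ K) : ∃ C : ℝ, 1 ≤ C ∧ ∀ m l : ℕ, 3 ≤ m →
    sg K (2 ^ l * m) / ((2 ^ l * m : ℕ) : ℝ) ≤
      C * Real.exp (-(1 / 4)) ^ l * ((m : ℝ) ^ (-(2 / 3) : ℝ) *
        Real.exp (2 * K * Real.log (Real.log m) ^ 2)) := by
  -- the constant
  obtain ⟨C, hC⟩ : ∃ C : ℝ, C = Real.exp (1 + 8000 * K ^ 2) := ⟨_, rfl⟩
  refine ⟨C, by rw [hC]; exact Real.one_le_exp (by positivity), fun m l hm => ?_⟩
  have hm3 : (3 : ℝ) ≤ m := by exact_mod_cast hm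
  have hmp : (0 : ℝ) < m := by linarith
  obtain ⟨hlm, hllm⟩ := loglog_nonneg hm
  obtain ⟨N, hN⟩ : ∃ N : ℝ, N = ((2 ^ l * m : ℕ) : ℝ) := ⟨_, rfl⟩
  have hN' : N = 2 ^ l * (m : ℝ) := by rw [hN]; push_cast; rfl
  have h2l : (1 : ℝ) ≤ 2 ^ l := one_le_pow₀ (by norm_num)
  have hNp : 0 < N := by rw [hN']; positivity
  have hlogN : Real.log N = l * Real.log 2 + Real.log m := by
    rw [hN', Real.log_mul (by positivity) (by positivity), Real.log_pow]
  have hl0 : (0 : ℝ) ≤ l := Nat.cast_nonneg _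
  have hlog2 : Real.log 2 ≤ 1 := by
    have := Real.log_two_lt_d9
    linarith
  have hlog2' : 0.69 ≤ Real.log 2 := by
    have := Real.log_two_gt_d9
    linarith
  have hlogN1 : Real.log N ≤ (1 + l) * Real.log m := by
    rw [hlogN]
    nlinarith
  have hlogN2 : 1 ≤ Real.log N := by
    rw [hlogN]
    nlinarith
  have hll : Real.log (Real.log N) ≤ Real.log (1 + l) + Real.log (Real.log m) := by
    have := Real.log_le_log (by linarith) hlogN1
    rwa [Real.log_mul (by positivity) (by linarith)] at this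
  have hll0 : 0 ≤ Real.log (Real.log N) := Real.log_nonneg hlogN2
  have hsq : Real.log (Real.log N) ^ 2 ≤ 2 * Real.log (1 + l) ^ 2 +
      2 * Real.log (Real.log m) ^ 2 := by
    have h3 := pow_le_pow_left₀ hll0 hll 2
    nlinarith [sq_nonneg (Real.log (1 + l) - Real.log (Real.log m))]
  -- the square of the logarithm
  have hlog : 2 * K * Real.log (1 + l) ^ 2 ≤ (1 + l) / 5 + 8000 * K ^ 2 := by
    have h1l : (1 : ℝ) ≤ 1 + l := by linarith
    obtain ⟨z, hz⟩ : ∃ z : ℝ, z = (1 + (l : ℝ)) ^ (1 / 4 : ℝ) := ⟨_, rfl⟩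
    have hz0 : 0 ≤ z := by rw [hz]; positivity
    have h3 : Real.log (1 + (l : ℝ)) ≤ 4 * z := by
      have := Real.log_le_rpow_div (x := 1 + (l : ℝ)) (ε := 1 / 4) (by linarith) (by norm_num)
      rw [← hz] at this
      linarith
    have h4 : 0 ≤ Real.log (1 + (l : ℝ)) := Real.log_nonneg h1l
    have h5 : Real.log (1 + (l : ℝ)) ^ 2 ≤ (4 * z) ^ 2 := pow_le_pow_left₀ h4 h3 2
    have h6 : z ^ 4 = 1 + l := by
      rw [hz, ← Real.rpow_natCast, ← Real.rpow_mul (by linarith)]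
      norm_num
    have h7 : 2 * K * (4 * z) ^ 2 ≤ z ^ 4 / 5 + 8000 * K ^ 2 := by
      nlinarith [sq_nonneg (z ^ 2 - 80 * K)]
    have h8 : 2 * K * Real.log (1 + (l : ℝ)) ^ 2 ≤ 2 * K * (4 * z) ^ 2 :=
      mul_le_mul_of_nonneg_left h5 (by linarith)
    rw [h6] at h7
    linarith
  have hrp : N ^ (1 / 3 : ℝ) / N = Real.exp (-(2 / 3) * (l * Real.log 2)) *
      (m : ℝ) ^ (-(2 / 3) : ℝ) := by
    have e1 : N ^ (1 / 3 : ℝ) / N = N ^ (-(2 / 3) : ℝ) := by
      have := Real.rpow_sub_one hNp.ne' (1 / 3 : ℝ)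
      rw [← this]
      norm_num
    rw [e1, Real.rpow_def_of_pos hNp, hlogN, Real.rpow_def_of_pos hmp, ← Real.exp_add]
    congr 1
    ring
  have hmain : sg K (2 ^ l * m) / N = Real.exp (-(2 / 3) * (l * Real.log 2) +
      K * Real.log (Real.log N) ^ 2) * (m : ℝ) ^ (-(2 / 3) : ℝ) := by
    unfold sg
    rw [← hN, Real.exp_add]
    calc N ^ (1 / 3 : ℝ) * Real.exp (K * Real.log (Real.log N) ^ 2) / N
        = (N ^ (1 / 3 : ℝ) / N) * Real.exp (K * Real.log (Real.log N) ^ 2) := by ring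
      _ = _ := by rw [hrp]; ring
  rw [← hN, hmain]
  have hexp : -(2 / 3) * (l * Real.log 2) + K * Real.log (Real.log N) ^ 2 ≤
      (1 + 8000 * K ^ 2) + (l : ℝ) * (-(1 / 4)) + 2 * K * Real.log (Real.log m) ^ 2 := by
    have e1 : K * Real.log (Real.log N) ^ 2 ≤ K * (2 * Real.log (1 + l) ^ 2 +
      2 * Real.log (Real.log m) ^ 2) := mul_le_mul_of_nonneg_left hsq (by linarith)
    nlinarith
  calc Real.exp (-(2 / 3) * (l * Real.log 2) + K * Real.log (Real.log N) ^ 2) *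
        (m : ℝ) ^ (-(2 / 3) : ℝ)
      ≤ Real.exp ((1 + 8000 * K ^ 2) + (l : ℝ) * (-(1 / 4)) +
          2 * K * Real.log (Real.log m) ^ 2) * (m : ℝ) ^ (-(2 / 3) : ℝ) := by
        apply mul_le_mul_of_nonneg_right (Real.exp_le_exp.2 hexp) (by positivity)
    _ = _ := by
        rw [Real.exp_add, Real.exp_add, Real.exp_nat_mul, hC]
        ring

/-- **The mean number of far contacts.** -/
theorem far_mean : ∃ K : ℝ, 1 ≤ K ∧ ∀ n m : ℕ, 3 ≤ m →
    ∑ v ∈ KK n, ((FL m v).card : ℝ) ≤ K * (n * ((m : ℝ) ^ (-(2 / 3) : ℝ) *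
      Real.exp (K * Real.log (Real.log m) ^ 2))) * (KK n).card := by
  obtain ⟨K1, hK1, g⟩ := one_scale
  obtain ⟨C, hC1, hC⟩ := term_bound hK1
  obtain ⟨K, hK⟩ : ∃ K : ℝ, K = 5 * K1 * C := ⟨_, rfl⟩
  have hKK : 2 * K1 ≤ K := by rw [hK]; nlinarith
  refine ⟨K, by linarith, fun n m hm => ?_⟩
  have hc : (0 : ℝ) ≤ (KK n).card := Nat.cast_nonneg _
  have hn0 : (0 : ℝ) ≤ n := Nat.cast_nonneg _
  obtain ⟨T, hT⟩ : ∃ T : ℝ, T = (m : ℝ) ^ (-(2 / 3) : ℝ) *
    Real.exp (2 * K1 * Real.log (Real.log m) ^ 2) := ⟨_, rfl⟩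
  have hT0 : 0 ≤ T := by rw [hT]; positivity
  have h1 : ∑ v ∈ KK n, ((FL m v).card : ℝ) ≤
      ∑ l ∈ Finset.range n, ∑ v ∈ KK n, ((FS (2 ^ l * m) v).card : ℝ) := by
    rw [Finset.sum_comm]
    refine Finset.sum_le_sum fun v hv => ?_
    rw [mem_KK] at hv
    exact_mod_cast FL_le (by omega) hv.1
  have h2 : ∀ l ∈ Finset.range n, ∑ v ∈ KK n, ((FS (2 ^ l * m) v).card : ℝ) ≤
      (K1 * n * C * T * (KK n).card) * Real.exp (-(1 / 4)) ^ l := by
    intro l _
    have h3 : 3 ≤ 2 ^ l * m := by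
      have : 1 * m ≤ 2 ^ l * m := Nat.mul_le_mul_right _ Nat.one_le_two_pow
      omega
    refine (g n (2 ^ l * m) h3).trans ?_
    have h4 := hC m l hm
    rw [← hT] at h4
    calc K1 * ((n : ℝ) / ((2 ^ l * m : ℕ) : ℝ) * sg K1 (2 ^ l * m)) * (KK n).card
        = (K1 * n * (KK n).card) * (sg K1 (2 ^ l * m) / ((2 ^ l * m : ℕ) : ℝ)) := by ring
      _ ≤ (K1 * n * (KK n).card) * (C * Real.exp (-(1 / 4)) ^ l * T) := by
          apply mul_le_mul_of_nonneg_left h4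
          exact mul_nonneg (mul_nonneg (by linarith) hn0) hc
      _ = _ := by ring
  refine h1.trans ((Finset.sum_le_sum h2).trans ?_)
  rw [← Finset.mul_sum]
  have h9 : ∑ j ∈ Finset.range n, Real.exp (-(1 / 4)) ^ j ≤ 5 := by
    have r0 : 0 ≤ Real.exp (-(1 / 4)) := (Real.exp_pos _).le
    have r1 : Real.exp (-(1 / 4)) ≤ 4 / 5 := by
      rw [Real.exp_neg, inv_le_comm₀ (Real.exp_pos _) (by norm_num)]
      have := Real.add_one_le_exp (1 / 4 : ℝ)
      norm_num at this ⊢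
      linarith
    have r3 : Real.exp (-(1 / 4)) < 1 := by linarith
    have r4 := (summable_geometric_of_lt_one r0 r3).sum_le_tsum (Finset.range n)
        (fun j _ => pow_nonneg r0 j)
    rw [tsum_geometric_of_lt_one r0 r3] at r4
    refine r4.trans ?_
    rw [inv_le_comm₀ (by linarith) (by norm_num)]
    linarith
  have hT2 : T ≤ (m : ℝ) ^ (-(2 / 3) : ℝ) * Real.exp (K * Real.log (Real.log m) ^ 2) := by
    rw [hT]
    gcongr
  have hA0 : 0 ≤ K1 * n * C * T * (KK n).card := by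
    apply mul_nonneg (mul_nonneg (mul_nonneg (mul_nonneg (by linarith) hn0) (by linarith)) hT0) hc
  calc K1 * n * C * T * (KK n).card * ∑ j ∈ Finset.range n, Real.exp (-(1 / 4)) ^ j
      ≤ K1 * n * C * T * (KK n).card * 5 := mul_le_mul_of_nonneg_left h9 hA0
    _ = K * (n * T) * (KK n).card := by rw [hK]; ring
    _ ≤ _ := by
        apply mul_le_mul_of_nonneg_right _ hc
        apply mul_le_mul_of_nonneg_left _ (by linarith)
        exact mul_le_mul_of_nonneg_left hT2 hn0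

/-- the far contacts of a function -/
noncomputable def farContacts {n : ℕ} (m : ℕ) (ω : Fin (n + 1) → (Fin 3 → ℤ)) : ℕ :=
  Set.ncard {p : Fin (n + 1) × Fin (n + 1) | p.1.1 + m < p.2.1 ∧
    ∑ j : Fin 3, |ω p.2 j - ω p.1 j| = 1}

theorem FL_ofFn {n : ℕ} (m : ℕ) {ω : Fin (n + 1) → (Fin 3 → ℤ)} (hω : Function.Injective ω) :
    (FL m (List.ofFn ω)).card = farContacts m ω := by
  unfold FL farContacts
  rw [← Set.ncard_coe_finset]
  have hinj : Function.Injective (fun p : Fin (n + 1) × Fin (n + 1) => (ω p.1, ω p.2)) := by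
    rintro ⟨a, b⟩ ⟨c, d⟩ h
    simp only [Prod.mk.injEq] at h
    exact Prod.ext (hω h.1) (hω h.2)
  rw [← Set.ncard_image_of_injective _ hinj]
  congr 1
  ext ⟨x, y⟩
  simp only [Finset.coe_filter, Finset.mem_product, List.mem_toFinset, Set.mem_ofPred_eq,
    Set.mem_image, Prod.exists, Prod.mk.injEq]
  constructor
  · rintro ⟨-, i, j, h1, h2, h3, h4⟩
    rw [List.getElem?_eq_some_iff] at h2 h3
    obtain ⟨hi, h2⟩ := h2
    obtain ⟨hj, h3⟩ := h3
    rw [List.length_ofFn] at hi hj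
    rw [List.getElem_ofFn] at h2 h3
    subst h2 h3
    exact ⟨⟨i, hi⟩, ⟨j, hj⟩, ⟨h1, h4⟩, rfl, rfl⟩
  · rintro ⟨i, j, ⟨h1, h2⟩, rfl, rfl⟩
    refine ⟨⟨List.mem_ofFn.2 ⟨i, rfl⟩, List.mem_ofFn.2 ⟨j, rfl⟩⟩, i.1, j.1, h1, ?_, ?_, h2⟩
    · rw [List.getElem?_eq_some_iff]
      exact ⟨by rw [List.length_ofFn]; exact i.2, by rw [List.getElem_ofFn]⟩
    · rw [List.getElem?_eq_some_iff]
      exact ⟨by rw [List.length_ofFn]; exact j.2, by rw [List.getElem_ofFn]⟩

end Pool.Agent.H829C
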