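import Pool.Agent.H829C.Cut
import Pool.Agent.TH232.S3.Iter
import Pool.Agent.H46R2.K3.EQ

/-!
# The growth of the number of walks, in the form used here
-/

set_option autoImplicit false

namespace Pool.Agent.H829C

open Finset H726.GD
open scoped Classical

/-- the connective constant -/
noncomputable abbrev mu : ℝ := Pool.Agent.H46R2.K3.mu

theorem one_le_mu : 1 ≤ mu := Pool.Agent.H46R2.K3.P.one_le_mu

theorem card_KK (n : ℕ) : (KK n).card = Pool.Agent.H46R2.K3.c n := by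
  have h := H726.GD.count_filter (H726.GD.rl0 lat) n (fun _ => True)
  simp only [and_true, Finset.filter_true] at h
  rw [h, ← Nat.card_coe_set_eq]
  exact Pool.Agent.H46R2.K3.P.card_eq n

theorem mu_pow_le (n : ℕ) : mu ^ n ≤ ((KK n).card : ℝ) := by
  rw [card_KK]
  exact Pool.Agent.H46R2.K3.P.mu_pow_le n

/-- `n ^ (1/3 + o(1))` -/
noncomputable def sg (K : ℝ) (n : ℕ) : ℝ :=
  (n : ℝ) ^ (1 / 3 : ℝ) * Real.exp (K * Real.log (Real.log n) ^ 2)

theorem loglog_nonneg {n : ℕ} (hn : 3 ≤ n) : 1 ≤ Real.log (n : ℝ) ∧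
    0 ≤ Real.log (Real.log (n : ℝ)) := by
  have hn' : (3 : ℝ) ≤ n := by exact_mod_cast hn
  have hl3 : 1 ≤ Real.log 3 := by
    rw [Real.le_log_iff_exp_le (by norm_num)]
    have := Real.exp_one_lt_d9
    linarith
  have hln : 1 ≤ Real.log (n : ℝ) := hl3.trans (Real.log_le_log (by norm_num) hn')
  exact ⟨hln, Real.log_nonneg hln⟩

theorem one_le_sg {K : ℝ} (hK : 0 ≤ K) {n : ℕ} (hn : 3 ≤ n) : 1 ≤ sg K n := by
  have hn' : (3 : ℝ) ≤ n := by exact_mod_cast hn
  have h1 : 1 ≤ (n : ℝ) ^ (1 / 3 : ℝ) := Real.one_le_rpow (by linarith) (by norm_num)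
  have h2 : 1 ≤ Real.exp (K * Real.log (Real.log n) ^ 2) := Real.one_le_exp (by positivity)
  unfold sg
  nlinarith

theorem sg_mono {K K' : ℝ} (h : K ≤ K') (n : ℕ) : sg K n ≤ sg K' n := by
  unfold sg
  gcongr

/-- growth up to length `4 n` -/
theorem growth : ∃ K : ℝ, 1 ≤ K ∧ ∀ n : ℕ, 3 ≤ n → ∃ H : ℝ, 1 ≤ H ∧
    (∀ j ≤ 4 * n, ((KK j).card : ℝ) ≤ H * mu ^ j) ∧ Real.log H ≤ K * sg K n := by
  obtain ⟨K0, hK0⟩ := Pool.Agent.TH232.S3.c_bound
  obtain ⟨K1, hK1⟩ : ∃ K1 : ℝ, K1 = max K0 0 := ⟨_, rfl⟩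
  have hK10 : 0 ≤ K1 := by rw [hK1]; exact le_max_right _ _
  have hK01 : K0 ≤ K1 := by rw [hK1]; exact le_max_left _ _
  have hmu := one_le_mu
  obtain ⟨B, hB⟩ : ∃ B : ℝ, B = 1 + (KK 0).card + (KK 1).card + (KK 2).card := ⟨_, rfl⟩
  have h0 : (0 : ℝ) ≤ (KK 0).card := Nat.cast_nonneg _
  have h1 : (0 : ℝ) ≤ (KK 1).card := Nat.cast_nonneg _
  have h2 : (0 : ℝ) ≤ (KK 2).card := Nat.cast_nonneg _
  have hB1 : 1 ≤ B := by linarith
  have hlB : 0 ≤ Real.log B := Real.log_nonneg hB1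
  obtain ⟨K, hK⟩ : ∃ K : ℝ, K = 1 + Real.log B + 4 * K1 * Real.exp (8 * K1) + 2 * K1 := ⟨_, rfl⟩
  have hKA : 0 ≤ 4 * K1 * Real.exp (8 * K1) := by positivity
  have hKK : 2 * K1 ≤ K := by linarith
  refine ⟨K, by linarith, fun n hn => ?_⟩
  have hn' : (3 : ℝ) ≤ n := by exact_mod_cast hn
  obtain ⟨hln, hlln⟩ := loglog_nonneg hn
  obtain ⟨g, hg⟩ : ∃ g : ℝ, g = K1 * ((4 * n : ℕ) : ℝ) ^ (1 / 3 : ℝ) *
    Real.exp (K1 * Real.log (Real.log ((4 * n : ℕ) : ℝ)) ^ 2) := ⟨_, rfl⟩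
  have hg0 : 0 ≤ g := by rw [hg]; positivity
  have hex : 1 ≤ Real.exp g := Real.one_le_exp hg0
  refine ⟨B * Real.exp g, by nlinarith, ?_, ?_⟩
  · intro j hj
    have hmj : 1 ≤ mu ^ j := one_le_pow₀ hmu
    have hBe : B ≤ B * Real.exp g * mu ^ j := by
      calc B = B * 1 * 1 := by ring
        _ ≤ _ := by gcongr
    rcases Nat.lt_or_ge j 3 with hj3 | hj3
    · refine le_trans ?_ hBe
      interval_cases j <;> linarith
    · rw [card_KK]
      refine (hK0 j hj3).trans ?_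
      obtain ⟨hlj, h5⟩ := loglog_nonneg hj3
      have hj' : (3 : ℝ) ≤ j := by exact_mod_cast hj3
      have hjn : (j : ℝ) ≤ ((4 * n : ℕ) : ℝ) := by exact_mod_cast hj
      have h3 : Real.log (j : ℝ) ≤ Real.log ((4 * n : ℕ) : ℝ) := Real.log_le_log (by linarith) hjn
      have h4 : Real.log (Real.log (j : ℝ)) ≤ Real.log (Real.log ((4 * n : ℕ) : ℝ)) :=
        Real.log_le_log (by linarith) h3
      have h6 : K0 * (j : ℝ) ^ (1 / 3 : ℝ) * Real.exp (K0 * Real.log (Real.log j) ^ 2) ≤ g := by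
        rw [hg]
        gcongr
      calc Pool.Agent.H46R2.K3.mu ^ j * Real.exp (K0 * (j : ℝ) ^ (1 / 3 : ℝ) *
            Real.exp (K0 * Real.log (Real.log j) ^ 2))
          ≤ mu ^ j * Real.exp g := by gcongr
        _ = 1 * Real.exp g * mu ^ j := by ring
        _ ≤ _ := by gcongr
  · rw [Real.log_mul (by positivity) (by positivity), Real.log_exp]
    have hn1 : 1 ≤ (n : ℝ) ^ (1 / 3 : ℝ) := Real.one_le_rpow (by linarith) (by norm_num)
    obtain ⟨x, hx⟩ : ∃ x : ℝ, x = Real.log (Real.log (n : ℝ)) := ⟨_, rfl⟩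
    have h2n : Real.log ((4 * n : ℕ) : ℝ) ≤ 3 * Real.log n := by
      push_cast
      rw [Real.log_mul (by norm_num) (by positivity)]
      have : Real.log 4 ≤ Real.log ((n : ℝ) ^ 2) := Real.log_le_log (by norm_num) (by nlinarith)
      rw [Real.log_pow] at this
      push_cast at this
      linarith
    have h2n1 : 1 ≤ Real.log ((4 * n : ℕ) : ℝ) := by
      refine hln.trans (Real.log_le_log (by linarith) ?_)
      push_cast; linarith
    have hll : Real.log (Real.log ((4 * n : ℕ) : ℝ)) ≤ 2 + x := by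
      have h3 := Real.log_le_log (by linarith) h2n
      rw [Real.log_mul (by norm_num) (by positivity), ← hx] at h3
      have h4 : Real.log 3 ≤ 2 := by
        have := Real.log_le_sub_one_of_pos (show (0 : ℝ) < 3 by norm_num)
        linarith
      linarith
    have hll0 : 0 ≤ Real.log (Real.log ((4 * n : ℕ) : ℝ)) := Real.log_nonneg h2n1
    have hsq : Real.log (Real.log ((4 * n : ℕ) : ℝ)) ^ 2 ≤ 8 + 2 * x ^ 2 := by
      have h3 := pow_le_pow_left₀ hll0 hll 2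
      nlinarith [sq_nonneg (2 - x)]
    have hroot : ((4 * n : ℕ) : ℝ) ^ (1 / 3 : ℝ) ≤ 4 * (n : ℝ) ^ (1 / 3 : ℝ) := by
      push_cast
      rw [Real.mul_rpow (by norm_num) (by linarith)]
      apply mul_le_mul_of_nonneg_right _ (by positivity)
      calc (4 : ℝ) ^ (1 / 3 : ℝ) ≤ 4 ^ (1 : ℝ) :=
            Real.rpow_le_rpow_of_exponent_le (by norm_num) (by norm_num)
        _ = 4 := Real.rpow_one _
    have hgle : g ≤ 4 * K1 * Real.exp (8 * K1) * sg (2 * K1) n := by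
      rw [hg]
      unfold sg
      rw [← hx]
      calc K1 * ((4 * n : ℕ) : ℝ) ^ (1 / 3 : ℝ) *
            Real.exp (K1 * Real.log (Real.log ((4 * n : ℕ) : ℝ)) ^ 2)
          ≤ K1 * (4 * (n : ℝ) ^ (1 / 3 : ℝ)) * Real.exp (K1 * (8 + 2 * x ^ 2)) := by gcongr
        _ = _ := by
            have : K1 * (8 + 2 * x ^ 2) = 8 * K1 + 2 * K1 * x ^ 2 := by ring
            rw [this, Real.exp_add]; ring
    have h1s := one_le_sg (K := 2 * K1) (by linarith) hn
    have h2s := sg_mono hKK n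
    have hs0 : 0 ≤ sg K n := by linarith
    calc Real.log B + g ≤ Real.log B * sg K n + 4 * K1 * Real.exp (8 * K1) * sg K n := by
          have a1 : Real.log B ≤ Real.log B * sg K n := by nlinarith
          have a2 : 4 * K1 * Real.exp (8 * K1) * sg (2 * K1) n ≤
              4 * K1 * Real.exp (8 * K1) * sg K n := mul_le_mul_of_nonneg_left h2s hKA
          linarith
      _ = (Real.log B + 4 * K1 * Real.exp (8 * K1)) * sg K n := by ring
      _ ≤ K * sg K n := mul_le_mul_of_nonneg_right (by linarith) hs0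

end Pool.Agent.H829C
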