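import Pool.Agent.H726.GB.ConcD

/-!
# Walks which avoid an obstacle are seldom close to it at many places

`Z` is a local rule (replacement of a window of the walk by another one).  The number of the moves
of a walk `w` which would make it pass through the obstacle `O` has exponential tails under the
measure on all walks, on the event that the walk avoids `O`.
-/

set_option autoImplicit false

namespace Pool.Agent.H829C

open Finset H726.GD
open scoped Classical

variable {d : ℕ} {A : (Pt d) → (Pt d) → Prop} (Z : Rl A)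

/-- the moves which lead the walk through the obstacle -/
noncomputable def mv (O : Set (Pt d)) (w : List (Pt d)) : Finset (List (Pt d) × List (Pt d)) :=
  (Z.S w).filter (fun q => ∃ p ∈ q.2, p ∈ O ∧ p ∉ q.1)

/-- the obstacle points on the walk -/
noncomputable def hit (O : Set (Pt d)) (w : List (Pt d)) : Finset (Pt d) :=
  w.toFinset.filter (fun p => p ∈ O ∧ p ≠ 0)

/-- the walks after `k` moves -/
noncomputable def cls (O : Set (Pt d)) (J : ℝ) (n k : ℕ) : Finset (List (Pt d)) :=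
  (Kw A (n + Z.s * k)).filter (fun w => (hit O w).card ≤ (Z.k + Z.s) * k ∧
    J ≤ ((mv Z O w).card : ℝ) + Z.CC * k)

theorem one_move (O : Set (Pt d)) (J : ℝ) (n k : ℕ) {w : List (Pt d)}
    {q : List (Pt d) × List (Pt d)} (hw : w ∈ cls Z O J n k) (hq : q ∈ mv Z O w) :
    Rl.rep w q.1 q.2 ∈ cls Z O J n (k + 1) ∧ q ∈ (hit O (Rl.rep w q.1 q.2)).biUnion Z.cand ∧
      Rl.rep (Rl.rep w q.1 q.2) q.2 q.1 = w := by
  obtain ⟨U, U'⟩ := q
  unfold cls at hw
  rw [Finset.mem_filter, Z.mem_K] at hw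
  obtain ⟨⟨hw1, hw2⟩, hw3, hw4⟩ := hw
  have hq0 := hq
  unfold mv at hq
  rw [Finset.mem_filter, Z.mem_S] at hq
  obtain ⟨⟨hT, hF⟩, p, hp1, hp2, hp3⟩ := hq
  simp only at hT hF hp1 hp3
  obtain ⟨L, R, h1, h2, h3, h4, h5⟩ := Rl.rep_all (Z.pair _ _ hT) hw2 hF
  have hl := Z.len _ _ hT
  simp only
  rw [h2]
  have hlen : (L ++ U' ++ R).length = n + Z.s * (k + 1) + 1 := by
    have h6 := hw1
    rw [h1] at h6
    simp only [List.length_append] at h6 ⊢
    rw [Nat.mul_succ]
    omega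
  refine ⟨?_, ?_, h5⟩
  · unfold cls
    rw [Finset.mem_filter, Z.mem_K]
    refine ⟨⟨hlen, h3⟩, ?_, ?_⟩
    · have hsub : hit O (L ++ U' ++ R) ⊆ hit O w ∪ U'.toFinset := by
        intro x hx
        unfold hit at hx ⊢
        rw [Finset.mem_filter, List.mem_toFinset] at hx
        rw [Finset.mem_union, Finset.mem_filter, List.mem_toFinset, List.mem_toFinset]
        by_cases hU : x ∈ U'
        · exact Or.inr hU
        · left
          refine ⟨?_, hx.2⟩
          rw [h1]
          have := hx.1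
          simp only [List.mem_append] at this ⊢
          tauto
      have h7 := Finset.card_le_card hsub
      have h8 := Finset.card_union_le (hit O w) U'.toFinset
      have h9 := List.toFinset_card_le U'
      rw [Nat.mul_succ]
      omega
    · have h6 : (mv Z O w).card ≤ (mv Z O (L ++ U' ++ R)).card + Z.CC := by
        obtain ⟨z, U0, hz⟩ := List.exists_cons_of_ne_nil (Rl.ne_nil (Z.pair _ _ hT))
        refine Rl.card_le_of_diff (N := Z.near z) ?_ (Z.card_near z)
        rintro ⟨V, V'⟩ hV hV'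
        unfold mv at hV hV'
        rw [Finset.mem_filter, Z.mem_S] at hV hV'
        by_contra hcon
        refine hV' ⟨⟨hV.1.1, ?_⟩, hV.2⟩
        have hk := hV.1.2
        rw [h1] at hk
        refine keep (Z.pair _ _ hT) (Rl.ne_nil (Z.pair _ _ hV.1.1)) hk fun x hx hc => ?_
        exact hcon (Z.mem_near hT hV.1.1 (by rw [hz]; simp) hx hc)
      have h7 : ((mv Z O w).card : ℝ) ≤ ((mv Z O (L ++ U' ++ R)).card : ℝ) + Z.CC := by
        exact_mod_cast h6
      push_cast
      linarith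
  · rw [Finset.mem_biUnion]
    refine ⟨p, ?_, Z.mem_cand hT (by simp [hp1])⟩
    unfold hit
    rw [Finset.mem_filter, List.mem_toFinset]
    refine ⟨by simp [hp1], hp2, ?_⟩
    rintro rfl
    refine hF.2 0 hp1 hp3 ?_
    obtain ⟨hh, -, -⟩ := hw2
    rcases w with _ | ⟨a, w'⟩
    · simp at hh
    · simp only [List.head?_cons, Option.some.injEq] at hh
      rw [hh]
      exact List.mem_cons_self

theorem step (O : Set (Pt d)) (J : ℝ) (n k : ℕ) :
    ((cls Z O J n k).card : ℝ) * (J - Z.CC * k) ≤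
      ((cls Z O J n (k + 1)).card : ℝ) * (((Z.k + Z.s) * (k + 1) : ℕ) * Z.c0) := by
  have h1 : ((cls Z O J n k).card : ℝ) * (J - Z.CC * k) ≤
      ((∑ w ∈ cls Z O J n k, (mv Z O w).card : ℕ) : ℝ) := by
    rw [← nsmul_eq_mul, ← Finset.sum_const]
    push_cast
    refine Finset.sum_le_sum fun w hw => ?_
    unfold cls at hw
    rw [Finset.mem_filter] at hw
    linarith [hw.2.2]
  refine h1.trans ?_
  have h2 : ∑ w ∈ cls Z O J n k, (mv Z O w).card ≤
      ∑ w ∈ cls Z O J n (k + 1), ((hit O w).biUnion Z.cand).card := by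
    rw [← Finset.card_sigma, ← Finset.card_sigma]
    refine Finset.card_le_card_of_injOn
      (fun x => ⟨Rl.rep x.1 x.2.1 x.2.2, x.2⟩) ?_ ?_
    · rintro ⟨w, q⟩ hx
      rw [Finset.mem_coe, Finset.mem_sigma] at hx
      rw [Finset.mem_coe, Finset.mem_sigma]
      obtain ⟨h3, h4, -⟩ := one_move Z O J n k hx.1 hx.2
      exact ⟨h3, h4⟩
    · rintro ⟨w, q⟩ hx ⟨w', q'⟩ hx' h
      rw [Finset.mem_coe, Finset.mem_sigma] at hx hx'
      simp only [Sigma.mk.injEq, heq_eq_eq] at h
      obtain ⟨h5, h6⟩ := h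
      subst h6
      obtain ⟨-, -, h7⟩ := one_move Z O J n k hx.1 hx.2
      obtain ⟨-, -, h8⟩ := one_move Z O J n k hx'.1 hx'.2
      simp only at h7 h8
      rw [← h7, h5, h8]
  have h3 : ∑ w ∈ cls Z O J n (k + 1), ((hit O w).biUnion Z.cand).card ≤
      (cls Z O J n (k + 1)).card * (((Z.k + Z.s) * (k + 1)) * Z.c0) := by
    rw [← smul_eq_mul, ← Finset.sum_const]
    refine Finset.sum_le_sum fun w hw => ?_
    unfold cls at hw
    rw [Finset.mem_filter] at hw
    exact (Finset.card_biUnion_le_card_mul _ _ _ fun x _ => Z.card_cand x).trans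
      (Nat.mul_le_mul_right _ hw.2.1)
  exact_mod_cast h2.trans h3

/-- **Obstacle theorem.** -/
theorem obst (M0 : ℝ) (hM0 : 0 ≤ M0)
    (hs : ∀ n k : ℕ, ((Kw A (n + Z.s * k)).card : ℝ) ≤ M0 ^ k * (Kw A n).card) :
    ∃ K : ℝ, 1 ≤ K ∧ ∀ (O : Set (Pt d)) (n : ℕ) (J : ℝ),
      (((Kw A n).filter (fun w => (∀ x ∈ w, x ∈ O → x = 0) ∧
        J ≤ ((mv Z O w).card : ℝ))).card : ℝ) ≤ K * Real.exp (-J / K) * (Kw A n).card := by
  obtain ⟨B, hB⟩ : ∃ B : ℝ, B = ((Z.k + Z.s : ℕ) : ℝ) * Z.c0 := ⟨_, rfl⟩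
  have hB0 : 0 ≤ B := by rw [hB]; positivity
  obtain ⟨M, hM⟩ : ∃ M : ℝ, M = 3 + 2 * Z.CC + 6 * B * M0 := ⟨_, rfl⟩
  have hCC : (0 : ℝ) ≤ Z.CC := Nat.cast_nonneg _
  have hBM : 0 ≤ B * M0 := mul_nonneg hB0 hM0
  have hM3 : 3 ≤ M := by rw [hM]; nlinarith
  have hM1 : 2 * (Z.CC : ℝ) ≤ M := by rw [hM]; nlinarith
  have hM2 : 6 * B * M0 ≤ M := by rw [hM]; nlinarith
  refine ⟨M, by linarith, fun O n J => ?_⟩
  have hc : (0 : ℝ) ≤ (Kw A n).card := Nat.cast_nonneg _
  by_cases hJ : J ≤ 0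
  · have h1 : (((Kw A n).filter (fun w => (∀ x ∈ w, x ∈ O → x = 0) ∧
        J ≤ ((mv Z O w).card : ℝ))).card : ℝ) ≤ (Kw A n).card := by
      exact_mod_cast Finset.card_filter_le _ _
    have h2 : 1 ≤ Real.exp (-J / M) := by
      apply Real.one_le_exp
      apply div_nonneg <;> linarith
    have h3 : 1 ≤ M * Real.exp (-J / M) := by nlinarith
    nlinarith
  push Not at hJ
  have hMp : 0 < M := by linarith
  obtain ⟨k, hk⟩ : ∃ k : ℕ, k = ⌊J / M⌋₊ := ⟨_, rfl⟩
  have hk1 : (k : ℝ) ≤ J / M := by rw [hk]; exact Nat.floor_le (by positivity)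
  have hk2 : J / M < k + 1 := by rw [hk]; exact Nat.lt_floor_add_one _
  have hk3 : (k : ℝ) * M ≤ J := by rwa [le_div_iff₀ hMp] at hk1
  have hrec : ∀ j, j < k → ((cls Z O J n j).card : ℝ) ≤
      (2 * B / M) * ((cls Z O J n (j + 1)).card : ℝ) := by
    intro j hj
    have h1 := step Z O J n j
    have hj1 : (j : ℝ) + 1 ≤ k := by exact_mod_cast hj
    have h2 : J / 2 ≤ J - Z.CC * j := by
      have : (Z.CC : ℝ) * j ≤ J / 2 := by
        have h3 : (j : ℝ) * M ≤ J := by nlinarith
        have h4 : (j : ℝ) * (2 * Z.CC) ≤ j * M := by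
          apply mul_le_mul_of_nonneg_left hM1 (Nat.cast_nonneg _)
        nlinarith
      linarith
    have h3 : ((cls Z O J n j).card : ℝ) * (J / 2) ≤ ((cls Z O J n (j + 1)).card : ℝ) *
        (B * (J / M)) := by
      refine (mul_le_mul_of_nonneg_left h2 (Nat.cast_nonneg _)).trans (h1.trans ?_)
      refine mul_le_mul_of_nonneg_left ?_ (Nat.cast_nonneg _)
      have h4 : (((Z.k + Z.s) * (j + 1) : ℕ) : ℝ) * Z.c0 = B * ((j : ℝ) + 1) := by
        rw [hB]; push_cast; ring
      rw [h4]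
      exact mul_le_mul_of_nonneg_left (hj1.trans hk1) hB0
    have h5 : ((cls Z O J n (j + 1)).card : ℝ) * (B * (J / M)) =
        (2 * B / M) * ((cls Z O J n (j + 1)).card : ℝ) * (J / 2) := by
      field_simp
    rw [h5] at h3
    exact le_of_mul_le_mul_right h3 (by positivity)
  have hit : ∀ j, j ≤ k → ((cls Z O J n 0).card : ℝ) ≤ (2 * B / M) ^ j *
      ((cls Z O J n j).card : ℝ) := by
    intro j
    induction j with
    | zero => intro _; simp
    | succ j ih =>
      intro hj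
      refine (ih (by omega)).trans ?_
      have h1 := hrec j (by omega)
      have h2 : 0 ≤ (2 * B / M) ^ j := by positivity
      calc (2 * B / M) ^ j * ((cls Z O J n j).card : ℝ)
          ≤ (2 * B / M) ^ j * ((2 * B / M) * ((cls Z O J n (j + 1)).card : ℝ)) :=
            mul_le_mul_of_nonneg_left h1 h2
        _ = _ := by ring
  have h0 : (((Kw A n).filter (fun w => (∀ x ∈ w, x ∈ O → x = 0) ∧
      J ≤ ((mv Z O w).card : ℝ))).card : ℝ) ≤ ((cls Z O J n 0).card : ℝ) := by
    have : (Kw A n).filter (fun w => (∀ x ∈ w, x ∈ O → x = 0) ∧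
        J ≤ ((mv Z O w).card : ℝ)) ⊆ cls Z O J n 0 := by
      intro w hw
      rw [Finset.mem_filter] at hw
      unfold cls
      rw [Finset.mem_filter]
      refine ⟨by simpa using hw.1, ?_, ?_⟩
      · simp only [Nat.mul_zero, Nat.le_zero, Finset.card_eq_zero]
        unfold H829C.hit
        rw [Finset.filter_eq_empty_iff]
        intro x hx hc
        rw [List.mem_toFinset] at hx
        exact hc.2 (hw.2.1 x hx hc.1)
      · simpa using hw.2.2
    exact_mod_cast Finset.card_le_card this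
  have h1 : ((cls Z O J n k).card : ℝ) ≤ M0 ^ k * (Kw A n).card := by
    refine le_trans ?_ (hs n k)
    exact_mod_cast Finset.card_filter_le _ _
  have h2 := hit k le_rfl
  have h3 : (2 * B / M) ^ k * ((cls Z O J n k).card : ℝ) ≤
      (2 * B / M * M0) ^ k * (Kw A n).card := by
    rw [mul_pow, mul_assoc]
    exact mul_le_mul_of_nonneg_left h1 (by positivity)
  have h4 : 2 * B / M * M0 ≤ Real.exp (-1) := by
    have h5 : 2 * B / M * M0 ≤ 1 / 3 := by
      rw [div_mul_eq_mul_div, div_le_div_iff₀ hMp (by norm_num)]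
      nlinarith
    refine h5.trans ?_
    rw [Real.exp_neg, ← one_div]
    apply one_div_le_one_div_of_le (Real.exp_pos _)
    linarith [Real.exp_one_lt_d9]
  have h5 : (2 * B / M * M0) ^ k ≤ Real.exp (-(k : ℝ)) := by
    refine (pow_le_pow_left₀ (by positivity) h4 k).trans (le_of_eq ?_)
    rw [← Real.exp_nat_mul]
    congr 1
    ring
  have h6 : Real.exp (-(k : ℝ)) ≤ M * Real.exp (-J / M) := by
    have h7 : Real.exp (-(k : ℝ)) ≤ Real.exp (1 + -J / M) := by
      apply Real.exp_le_exp.2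
      rw [neg_div]
      linarith
    refine h7.trans ?_
    rw [Real.exp_add]
    refine mul_le_mul_of_nonneg_right ?_ (Real.exp_pos _).le
    linarith [Real.exp_one_lt_d9]
  calc _ ≤ ((cls Z O J n 0).card : ℝ) := h0
    _ ≤ _ := h2
    _ ≤ _ := h3
    _ ≤ Real.exp (-(k : ℝ)) * (Kw A n).card := mul_le_mul_of_nonneg_right h5 hc
    _ ≤ _ := mul_le_mul_of_nonneg_right h6 hc

end Pool.Agent.H829C
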