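import Mathlib

/-!
# The local lemma for two disjoint paths on `ℤ³` which touch each other
-/

set_option autoImplicit false
set_option synthInstance.maxSize 100000
set_option synthInstance.maxHeartbeats 400000
set_option maxRecDepth 100000

namespace Pool.Agent.H829C

/-- the six unit vectors -/
def vec : Fin 6 → (Fin 3 → ℤ) :=
  ![![1, 0, 0], ![0, 1, 0], ![0, 0, 1], ![-1, 0, 0], ![0, -1, 0], ![0, 0, -1]]

theorem vec_neg : ∀ f : Fin 6, vec (f + 3) = -vec f := by decide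

theorem add33 : ∀ f : Fin 6, f + 3 + 3 = f := by decide

/-- the relations between a path `(P, E)` and an obstacle `P'` when there is no room for a local
change -/
structure Rel (N P P' : (Fin 3 → ℤ) → Prop) (E : (Fin 3 → ℤ) → Fin 6 → Prop) : Prop where
  out : ∀ x f, E x f → P (x + vec f)
  two : ∀ x, N x → P x → ∃ f g, f ≠ g ∧ E x f ∧ E x g
  nW : ∀ (p a : Fin 3 → ℤ) (g u : Fin 6), N p → P' p → a = p + vec g → P a → E a u → u ≠ g →
    u ≠ g + 3 → P (p + vec u)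
  nF : ∀ (p a b : Fin 3 → ℤ) (f u : Fin 6), N p → P' p → a = p + vec f → b = p + vec u → u ≠ f →
    u ≠ f + 3 → E a u → E b f → False

variable {N P P' : (Fin 3 → ℤ) → Prop} {E E' : (Fin 3 → ℤ) → Fin 6 → Prop}

theorem Rel.next (H : Rel N P P' E) (dis : ∀ x, P x → P' x → False) {p : Fin 3 → ℤ} {g : Fin 6}
    (hp : N p) (hp' : P' p) (hg : P (p + vec g)) (hn : N (p + vec g)) :
    ∃ u, u ≠ g ∧ u ≠ g + 3 ∧ E (p + vec g) u ∧ P (p + vec u) := by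
  obtain ⟨f1, f2, h12, e1, e2⟩ := H.two _ hn hg
  have key : ∀ f, E (p + vec g) f → f ≠ g + 3 := by
    intro f hf h
    subst h
    have h1 := H.out _ _ hf
    rw [vec_neg, add_neg_cancel_right] at h1
    exact dis _ h1 hp'
  by_cases h : f1 = g
  · have h2 : f2 ≠ g := fun h3 => h12 (h.trans h3.symm)
    exact ⟨f2, h2, key _ e2, e2, H.nW p _ g f2 hp hp' rfl hg e2 h2 (key _ e2)⟩
  · exact ⟨f1, h, key _ e1, e1, H.nW p _ g f1 hp hp' rfl hg e1 h (key _ e1)⟩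

theorem fd (H' : Rel N P' P E') {s : Fin 3 → ℤ} (n1 : ∀ f, N (s + vec f)) (hs : P' s)
    {v f : Fin 6} (hv : E' s v) (h1 : v ≠ f) (h2 : v ≠ f + 3) (hf : P (s + vec f)) :
    P' (s + vec f + vec v) := by
  refine H'.nW (s + vec f) s (f + 3) v (n1 f) hf ?_ hs hv h2 ?_
  · rw [vec_neg, add_neg_cancel_right]
  · rw [add33]; exact h1

theorem fe (H' : Rel N P' P E') {s : Fin 3 → ℤ} (n1 : ∀ f, N (s + vec f))
    {v f : Fin 6} (hv : E' s v) (h1 : v ≠ f) (h2 : v ≠ f + 3) (hf : P (s + vec f)) :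
    ¬ E' (s + vec f + vec v) (f + 3) := by
  intro h
  refine H'.nF (s + vec f) s _ (f + 3) v (n1 f) hf ?_ rfl h2 ?_ hv h
  · rw [vec_neg, add_neg_cancel_right]
  · rw [add33]; exact h1

theorem d1 : ∀ v f : Fin 6, f ≠ v → f ≠ v + 3 → ∀ u : Fin 6, u ≠ f → u ≠ f + 3 → u ≠ v →
    u ≠ v + 3 → ∀ g : Fin 6, g ≠ u → g ≠ u + 3 → g ≠ v → g ≠ v + 3 → g ≠ f → g = f + 3 := by
  decide

theorem d2 : ∀ v f : Fin 6, f ≠ v → f ≠ v + 3 → ∀ u : Fin 6, u ≠ f → u ≠ f + 3 → u ≠ v →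
    u ≠ v + 3 → ∀ e : Fin 6, e ≠ f + 3 → e ≠ u + 3 → e ≠ v → e ≠ v + 3 → e = f ∨ e = u := by
  decide

theorem d3 : ∀ v f : Fin 6, f ≠ v → f ≠ v + 3 → ∀ u : Fin 6, u ≠ f → u ≠ f + 3 → u ≠ v →
    u ≠ v + 3 → ∀ e : Fin 6, e ≠ v + 3 → e ≠ f + 3 → e ≠ u → e ≠ f → e ≠ u + 3 → e = v := by
  decide

theorem d4 : ∀ v w : Fin 6, v ≠ w → w ≠ v + 3 → ∀ f : Fin 6, f ≠ v → f ≠ w → f ≠ v + 3 →
    ∀ u : Fin 6, u ≠ f → u ≠ f + 3 → u ≠ v → u ≠ w → u ≠ v + 3 →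
    ∀ g : Fin 6, g ≠ u → g ≠ u + 3 → g ≠ v → g ≠ w → g ≠ v + 3 → g ≠ f →
    ∀ h : Fin 6, h ≠ g → h ≠ g + 3 → h ≠ v → h ≠ w → h ≠ v + 3 → h ≠ u → False := by
  decide

/-- two parallel steps of `w'` at `s` -/
theorem caseA (H : Rel N P P' E) (H' : Rel N P' P E') (dis : ∀ x, P x → P' x → False)
    {s : Fin 3 → ℤ} (n0 : N s) (n1 : ∀ f, N (s + vec f)) (n2 : ∀ f g, N (s + vec f + vec g))
    (hs : P' s) {f v : Fin 6} (hf : P (s + vec f)) (hv : E' s v) (hv' : E' s (v + 3)) : False := by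
  have V1 : ∀ g, P (s + vec g) → g ≠ v := by
    rintro g hg rfl
    exact dis _ hg (H'.out _ _ hv)
  have V2 : ∀ g, P (s + vec g) → g ≠ v + 3 := by
    rintro g hg rfl
    exact dis _ hg (H'.out _ _ hv')
  have a1 := V1 f hf
  have a2 := V2 f hf
  obtain ⟨u, b1, b2, b3, b4⟩ := H.next dis n0 hs hf (n1 f)
  have a3 := V1 u b4
  have a4 := V2 u b4
  obtain ⟨g, c1, c2, c3, c4⟩ := H.next dis n0 hs b4 (n1 u)
  have c5 : g ≠ f := by
    rintro rfl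
    exact H.nF s _ _ g u n0 hs rfl rfl b1 b2 b3 c3
  have c6 := d1 v f a1 a2 u b1 b2 a3 a4 g c1 c2 (V1 g c4) (V2 g c4) c5
  subst c6
  obtain ⟨h, e1, e2, e3, e4⟩ := H.next dis n0 hs c4 (n1 (f + 3))
  have e5 : h ≠ u := by
    rintro rfl
    exact H.nF s _ _ h (f + 3) n0 hs rfl rfl c1 c2 c3 e3
  have e6 := d1 v u a3 a4 (f + 3) c1 c2 (V1 _ c4) (V2 _ c4) h e1 e2 (V1 h e4) (V2 h e4) e5
  subst e6
  obtain ⟨k, k1, k2, k3, k4⟩ := H.next dis n0 hs e4 (n1 (u + 3))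
  have k5 : k ≠ f + 3 := by
    rintro rfl
    exact H.nF s _ _ (f + 3) (u + 3) n0 hs rfl rfl e1 e2 e3 k3
  have k6 := d1 v (f + 3) (V1 _ c4) (V2 _ c4) (u + 3) e1 e2 (V1 _ e4) (V2 _ e4) k k1 k2 (V1 k k4)
    (V2 k k4) k5
  rw [add33] at k6
  subst k6
  -- both directions at `s + f`
  have q : ∀ e, E (s + vec k) e → e = k ∨ e = u := by
    intro e he
    refine d2 v k a1 a2 u b1 b2 a3 a4 e ?_ ?_ ?_ ?_
    · rintro rfl
      have h1 := H.out _ _ he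
      rw [vec_neg, add_neg_cancel_right] at h1
      exact dis _ h1 hs
    · rintro rfl
      exact H.nF s _ _ (u + 3) k n0 hs rfl rfl k1 k2 k3 he
    · rintro rfl
      exact V1 e (H.nW s _ k e n0 hs rfl hf he (Ne.symm a1) (fun h => a2 (by rw [h, add33]))) rfl
    · rintro rfl
      exact V2 (v + 3) (H.nW s _ k (v + 3) n0 hs rfl hf he (Ne.symm a2)
        (fun h => a1 (by rw [← add33 v, h, add33]))) rfl
  obtain ⟨g1, g2, g12, ge1, ge2⟩ := H.two _ (n1 k) hf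
  have hk : E (s + vec k) k ∧ E (s + vec k) u := by
    rcases q g1 ge1 with rfl | rfl <;> rcases q g2 ge2 with rfl | rfl
    · exact absurd rfl g12
    · exact ⟨ge1, ge2⟩
    · exact ⟨ge2, ge1⟩
    · exact absurd rfl g12
  have t1 : P' (s + vec k + vec v) := fd H' n1 hs hv (Ne.symm a1) (fun h => a2 (by rw [h, add33])) hf
  have t2 : s + vec k = s + vec k + vec v + vec (v + 3) := by rw [vec_neg, add_neg_cancel_right]
  have t3 : ∀ e, E' (s + vec k + vec v) e → e = v := by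
    intro e he
    have ho := H'.out _ _ he
    refine d3 v k a1 a2 u b1 b2 a3 a4 e ?_ ?_ ?_ ?_ ?_
    · rintro rfl
      rw [← t2] at ho
      exact dis _ hf ho
    · rintro rfl
      exact fe H' n1 hv (Ne.symm a1) (fun h => a2 (by rw [h, add33])) hf he
    · rintro rfl
      refine dis _ ?_ ho
      exact H.nW _ _ (v + 3) e (n2 _ _) t1 t2 hf hk.2 a4 (by rw [add33]; exact a3)
    · rintro rfl
      refine dis _ ?_ ho
      exact H.nW _ _ (v + 3) e (n2 _ _) t1 t2 hf hk.1 a2 (by rw [add33]; exact a1)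
    · rintro rfl
      have u3 : v ≠ u + 3 := fun h => a4 (by rw [h, add33])
      have u4 : P' (s + vec (u + 3) + vec v) :=
        fd H' n1 hs hv u3 (by rw [add33]; exact Ne.symm a3) e4
      have u5 : s + vec (u + 3) = s + vec (u + 3) + vec v + vec (v + 3) := by
        rw [vec_neg v, add_neg_cancel_right]
      have u6 := H.nW _ _ (v + 3) k (n2 _ _) u4 u5 e4 k3 a2 (by rw [add33]; exact a1)
      have u7 : s + vec (u + 3) + vec v + vec k = s + vec k + vec v + vec (u + 3) := by abel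
      rw [u7] at u6
      exact dis _ u6 ho
  obtain ⟨x1, x2, x12, y1, y2⟩ := H'.two _ (n2 k v) t1
  exact x12 ((t3 _ y1).trans (t3 _ y2).symm)

theorem caseB1 (H : Rel N P P' E) (H' : Rel N P' P E') (dis : ∀ x, P x → P' x → False)
    {s : Fin 3 → ℤ} (n0 : N s) (n1 : ∀ f, N (s + vec f))
    (hs : P' s) {f v w : Fin 6} (hf : P (s + vec f)) (hv : E' s v) (hw : E' s w) (hvw : v ≠ w)
    (hvw' : w ≠ v + 3) : P (s + vec (v + 3)) := by
  by_contra hc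
  have V1 : ∀ g, P (s + vec g) → g ≠ v := by
    rintro g hg rfl
    exact dis _ hg (H'.out _ _ hv)
  have V2 : ∀ g, P (s + vec g) → g ≠ w := by
    rintro g hg rfl
    exact dis _ hg (H'.out _ _ hw)
  have V3 : ∀ g, P (s + vec g) → g ≠ v + 3 := by
    rintro g hg rfl
    exact hc hg
  obtain ⟨u, b1, b2, b3, b4⟩ := H.next dis n0 hs hf (n1 f)
  obtain ⟨g, c1, c2, c3, c4⟩ := H.next dis n0 hs b4 (n1 u)
  have c5 : g ≠ f := by
    rintro rfl
    exact H.nF s _ _ g u n0 hs rfl rfl b1 b2 b3 c3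
  obtain ⟨h, e1, e2, e3, e4⟩ := H.next dis n0 hs c4 (n1 g)
  have e5 : h ≠ u := by
    rintro rfl
    exact H.nF s _ _ h g n0 hs rfl rfl c1 c2 c3 e3
  exact d4 v w hvw hvw' f (V1 f hf) (V2 f hf) (V3 f hf) u b1 b2 (V1 u b4) (V2 u b4) (V3 u b4)
    g c1 c2 (V1 g c4) (V2 g c4) (V3 g c4) c5 h e1 e2 (V1 h e4) (V2 h e4) (V3 h e4) e5

theorem d5 : ∀ y z : Fin 6, z ≠ y → z ≠ y + 3 → ∀ u : Fin 6, u ≠ y + 3 → u ≠ z → u ≠ z + 3 →
    ∀ u' : Fin 6, u' ≠ u → u' ≠ y + 3 → u' ≠ z → u' ≠ z + 3 →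
    ∀ w : Fin 6, w ≠ y + 3 → w ≠ z → w ≠ u → w ≠ u' →
    ∀ w' : Fin 6, w' ≠ w → w' ≠ y + 3 → w' ≠ z → w' ≠ u → w' ≠ u' →
    ∀ h : Fin 6, h ≠ y + 3 → h ≠ z → h ≠ u → h ≠ w → h ≠ w' → h = u' := by
  decide

theorem caseB2 (H : Rel N P P' E) (H' : Rel N P' P E') (dis : ∀ x, P x → P' x → False)
    {s : Fin 3 → ℤ} (n1 : ∀ f, N (s + vec f)) (n2 : ∀ f g, N (s + vec f + vec g))
    (n3 : ∀ f g h, N (s + vec f + vec g + vec h))
    (hs : P' s) {y z : Fin 6} (hy : P (s + vec y)) (hv : E' s (y + 3)) (hw : E' s (z + 3))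
    (hyz : z ≠ y) (hyz' : z ≠ y + 3) : E (s + vec y) z := by
  by_contra hc
  have z1 : z + 3 ≠ y := fun h => hyz' (by rw [← h, add33])
  have z2 : z + 3 ≠ y + 3 := fun h => hyz (by rw [← add33 z, h, add33])
  have s1 : P' (s + vec y + vec (z + 3)) := fd H' n1 hs hw z1 z2 hy
  have s2 : s + vec y = s + vec y + vec (z + 3) + vec z := by
    rw [vec_neg, neg_add_cancel_right]
  have q : ∀ u, E (s + vec y) u → u ≠ y + 3 ∧ u ≠ z ∧ u ≠ z + 3 := by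
    intro u hu
    have ho := H.out _ _ hu
    refine ⟨?_, ?_, ?_⟩
    · rintro rfl
      rw [vec_neg, add_neg_cancel_right] at ho
      exact dis _ ho hs
    · rintro rfl
      exact hc hu
    · rintro rfl
      exact dis _ ho s1
  obtain ⟨u, u', h12, e1, e2⟩ := H.two _ (n1 y) hy
  obtain ⟨q1, q2, q3⟩ := q u e1
  obtain ⟨r1, r2, r3⟩ := q u' e2
  have p1 : P (s + vec y + vec (z + 3) + vec u) :=
    H.nW _ _ z u (n2 _ _) s1 s2 hy e1 q2 q3
  have p2 : P (s + vec y + vec (z + 3) + vec u') :=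
    H.nW _ _ z u' (n2 _ _) s1 s2 hy e2 r2 r3
  have wq : ∀ w, E' (s + vec y + vec (z + 3)) w → w ≠ y + 3 ∧ w ≠ z ∧ w ≠ u ∧ w ≠ u' := by
    intro w hw'
    have ho := H'.out _ _ hw'
    refine ⟨?_, ?_, ?_, ?_⟩
    · rintro rfl
      exact fe H' n1 hw z1 z2 hy hw'
    · rintro rfl
      rw [← s2] at ho
      exact dis _ hy ho
    · rintro rfl
      exact dis _ p1 ho
    · rintro rfl
      exact dis _ p2 ho
  obtain ⟨w, w', g12, f1, f2⟩ := H'.two _ (n2 y (z + 3)) s1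
  obtain ⟨w1, w2, w3, w4⟩ := wq w f1
  obtain ⟨x1, x2, x3, x4⟩ := wq w' f2
  have hq : ∀ a b : Fin 6, E (s + vec y) a → E (s + vec y + vec (z + 3) + vec a) b → a ≠ z →
      a ≠ z + 3 → P (s + vec y + vec (z + 3) + vec b) →
      b ≠ y + 3 ∧ b ≠ z ∧ b ≠ w ∧ b ≠ w' := by
    intro a b ha hb az az' hP
    refine ⟨?_, ?_, ?_, ?_⟩
    · rintro rfl
      have h1 : s + vec y + vec (z + 3) + vec (y + 3) = s + vec (z + 3) := by
        rw [vec_neg y]; abel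
      rw [h1] at hP
      exact dis _ hP (H'.out _ _ hw)
    · rintro rfl
      exact H.nF _ _ _ b a (n2 _ _) s1 s2 rfl az az' ha hb
    · rintro rfl
      exact dis _ hP (H'.out _ _ f1)
    · rintro rfl
      exact dis _ hP (H'.out _ _ f2)
  obtain ⟨h, a1, a2, a3, a4⟩ := H.next dis (n2 _ _) s1 p1 (n3 _ _ _)
  obtain ⟨b1, b2, b3, b4⟩ := hq u h e1 a3 q2 q3 a4
  have b5 := d5 y z hyz hyz' u q1 q2 q3 u' (Ne.symm h12) r1 r2 r3 w w1 w2 w3 w4 w' (Ne.symm g12)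
    x1 x2 x3 x4 h b1 b2 a1 b3 b4
  subst b5
  obtain ⟨k, c1, c2, c3, c4⟩ := H.next dis (n2 _ _) s1 p2 (n3 _ _ _)
  obtain ⟨k1, k2, k3, k4⟩ := hq h k e2 c3 r2 r3 c4
  have k5 := d5 y z hyz hyz' h r1 r2 r3 u h12 q1 q2 q3 w w1 w2 w4 w3 w' (Ne.symm g12)
    x1 x2 x4 x3 k k1 k2 c1 k3 k4
  subst k5
  exact H.nF _ _ _ k h (n2 _ _) s1 rfl rfl a1 a2 a3 c3

/-- **The local lemma.** -/
theorem loc (H : Rel N P P' E) (H' : Rel N P' P E') (dis : ∀ x, P x → P' x → False)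
    {s : Fin 3 → ℤ} (n0 : N s) (n1 : ∀ f, N (s + vec f)) (n2 : ∀ f g, N (s + vec f + vec g))
    (n3 : ∀ f g h, N (s + vec f + vec g + vec h))
    (hs : P' s) {f : Fin 6} (hf : P (s + vec f)) : False := by
  obtain ⟨v, w, hvw, e1, e2⟩ := H'.two s n0 hs
  by_cases hA : w = v + 3
  · subst hA
    exact caseA H H' dis n0 n1 n2 hs hf e1 e2
  · have hA' : v ≠ w + 3 := fun h => hA (by rw [h, add33])
    have y := caseB1 H H' dis n0 n1 hs hf e1 e2 hvw hA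
    have z := caseB1 H H' dis n0 n1 hs hf e2 e1 (Ne.symm hvw) hA'
    have v1 : E' s (v + 3 + 3) := by rw [add33]; exact e1
    have w1 : E' s (w + 3 + 3) := by rw [add33]; exact e2
    have x1 : w + 3 ≠ v + 3 := fun h => hvw (by rw [← add33 v, ← h, add33])
    have x2 : w + 3 ≠ v + 3 + 3 := by rw [add33]; exact Ne.symm hA'
    have x3 : v + 3 ≠ w + 3 + 3 := by rw [add33]; exact Ne.symm hA
    have h1 := caseB2 H H' dis n1 n2 n3 hs y v1 w1 x1 x2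
    have h2 := caseB2 H H' dis n1 n2 n3 hs z w1 v1 (Ne.symm x1) x3
    exact H.nF s _ _ (v + 3) (w + 3) n0 hs rfl rfl x1 x2 h1 h2

end Pool.Agent.H829C
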