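import Pool.Agent.H829C.Link

/-!
# The number of contacts of two independent walks
-/

set_option autoImplicit false

namespace Pool.Agent.H829C

open Finset H726.GD
open scoped Classical

/-- the number of contacts -/
noncomputable def ct (w w' : List (Fin 3 → ℤ)) : ℕ :=
  ((w.toFinset ×ˢ w'.toFinset).filter (fun x => x.1 ≠ 0 ∧ x.2 ≠ 0 ∧ Adj x.1 x.2)).card

/-- the sites as a set -/
def st (w : List (Fin 3 → ℤ)) : Set (Fin 3 → ℤ) := {x | x ∈ w}

/-- all the moves of `w` into `w'` -/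
noncomputable def am (w w' : List (Fin 3 → ℤ)) : Finset (List (Fin 3 → ℤ) × List (Fin 3 → ℤ)) :=
  mv (gr 2 2) (st w') w ∪ mv (gr 3 0) (st w') w

theorem plc_am {w w' : List (Fin 3 → ℤ)} {p : Fin 3 → ℤ} (h : plc w p) (hp : p ∈ w')
    (hp' : p ∉ w) : ∃ q ∈ am w w', p ∈ q.2 := by
  obtain ⟨U, U', h1, h2, h3, h4⟩ := h
  refine ⟨(U, U'), ?_, h4⟩
  have h5 : p ∉ U := fun hc => hp' (h3.1.subset hc)
  unfold am mv
  rw [Finset.mem_union, Finset.mem_filter, Finset.mem_filter, (gr 2 2).mem_S, (gr 3 0).mem_S]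
  rcases h1 with h1 | h1
  · exact Or.inl ⟨⟨⟨h1.1, h1.2, h2⟩, h3⟩, p, h4, hp, h5⟩
  · exact Or.inr ⟨⟨⟨h1.1, h1.2, h2⟩, h3⟩, p, h4, hp, h5⟩

theorem am_len {w w' : List (Fin 3 → ℤ)} {q : List (Fin 3 → ℤ) × List (Fin 3 → ℤ)}
    (h : q ∈ am w w') : q.2.length ≤ 4 := by
  unfold am mv at h
  rw [Finset.mem_union, Finset.mem_filter, Finset.mem_filter, (gr 2 2).mem_S, (gr 3 0).mem_S] at h
  rcases h with h | h
  · have := h.1.1.2.1
    omega
  · have := h.1.1.2.1
    omega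

/-- the sites within distance 3 of the moves -/
noncomputable def ar (w w' : List (Fin 3 → ℤ)) : Finset (Fin 3 → ℤ) :=
  (am w w').biUnion (fun q => q.2.toFinset.biUnion (fun p => box p 3))

theorem card_ar (w w' : List (Fin 3 → ℤ)) : (ar w w').card ≤ (am w w').card * (4 * 343) := by
  unfold ar
  refine Finset.card_biUnion_le_card_mul _ _ _ fun q hq => ?_
  refine (Finset.card_biUnion_le_card_mul _ _ 343 fun p _ => ?_).trans ?_
  · rw [card_box]
    norm_num
  · exact Nat.mul_le_mul_right _ ((List.toFinset_card_le _).trans (am_len hq))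

/-- the last point -/
def ls (w : List (Fin 3 → ℤ)) : Fin 3 → ℤ := w.getLast?.getD 0

theorem ct_le {w w' : List (Fin 3 → ℤ)} (hw : Walk Adj w) (hw' : Walk Adj w')
    (dis : ∀ x ∈ w, x ∈ w' → x = 0) :
    ct w w' ≤ 6 * (3993 + 1372 * ((am w w').card + (am w' w).card)) := by
  obtain ⟨S, hS⟩ : ∃ S : Finset (Fin 3 → ℤ), S = box 0 5 ∪ box (ls w) 5 ∪ box (ls w') 5 ∪
    ar w w' ∪ ar w' w := ⟨_, rfl⟩
  have hSc : S.card ≤ 3993 + 1372 * ((am w w').card + (am w' w).card) := by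
    rw [hS]
    have h1 := Finset.card_union_le (box 0 5 ∪ box (ls w) 5 ∪ box (ls w') 5 ∪ ar w w') (ar w' w)
    have h2 := Finset.card_union_le (box 0 5 ∪ box (ls w) 5 ∪ box (ls w') 5) (ar w w')
    have h3 := Finset.card_union_le (box 0 5 ∪ box (ls w) 5) (box (ls w') 5)
    have h4 := Finset.card_union_le (box (0 : Fin 3 → ℤ) 5) (box (ls w) 5)
    have h5 : ∀ x : Fin 3 → ℤ, (box x 5).card = 1331 := fun x => by rw [card_box]; norm_num
    rw [h5, h5] at h4
    rw [h5] at h3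
    have h6 := card_ar w w'
    have h7 := card_ar w' w
    omega
  have hsub : (w.toFinset ×ˢ w'.toFinset).filter (fun x => x.1 ≠ 0 ∧ x.2 ≠ 0 ∧ Adj x.1 x.2) ⊆
      S.biUnion (fun s => (Finset.univ : Finset (Fin 6)).image (fun f => (s + vec f, s))) := by
    rintro ⟨a, s⟩ h
    rw [Finset.mem_filter, Finset.mem_product, List.mem_toFinset, List.mem_toFinset] at h
    obtain ⟨⟨h1, h2⟩, h3, h4, h5⟩ := h
    simp only at h1 h2 h3 h4 h5
    obtain ⟨f, hf⟩ := adj_iff (adj_symm h5)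
    rw [Finset.mem_biUnion]
    refine ⟨s, ?_, Finset.mem_image.2 ⟨f, Finset.mem_univ _, by rw [hf]⟩⟩
    by_contra hc
    rw [hS] at hc
    simp only [Finset.mem_union, not_or] at hc
    obtain ⟨⟨⟨⟨c1, c2⟩, c3⟩, c4⟩, c5⟩ := hc
    rw [mem_box] at c1 c2 c3
    have hnr : ∀ x, nr s x → s ∈ box x 3 := by
      intro x hx
      rw [mem_box]
      exact hx
    obtain ⟨p, hp, hpp⟩ := near_plc hw hw' dis h2 h1 (adj_symm h5) c1
      (fun x hx hn => c2 fun i => by
        have : ls w = x := by unfold ls; rw [hx]; rfl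
        rw [this]
        exact (hn i).trans (by norm_num))
      (fun x hx hn => c3 fun i => by
        have : ls w' = x := by unfold ls; rw [hx]; rfl
        rw [this]
        exact (hn i).trans (by norm_num))
    rcases hpp with ⟨p1, p2, p3⟩ | ⟨p1, p2, p3⟩
    · obtain ⟨q, hq, hpq⟩ := plc_am p3 p1 p2
      apply c4
      unfold ar
      rw [Finset.mem_biUnion]
      refine ⟨q, hq, ?_⟩
      rw [Finset.mem_biUnion]
      exact ⟨p, List.mem_toFinset.2 hpq, hnr p hp⟩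
    · obtain ⟨q, hq, hpq⟩ := plc_am p3 p1 p2
      apply c5
      unfold ar
      rw [Finset.mem_biUnion]
      refine ⟨q, hq, ?_⟩
      rw [Finset.mem_biUnion]
      exact ⟨p, List.mem_toFinset.2 hpq, hnr p hp⟩
  have h1 := Finset.card_le_card hsub
  have h2 := Finset.card_biUnion_le_card_mul S
    (fun s => (Finset.univ : Finset (Fin 6)).image (fun f => (s + vec f, s))) 6
    (fun s _ => Finset.card_image_le.trans (by simp))
  unfold ct
  omega

/-- the number of pairs -/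
theorem pair_list (M0 : ℝ) (hM0 : 0 ≤ M0)
    (hs : ∀ n k : ℕ, ((Kw Adj (n + 2 * k)).card : ℝ) ≤ M0 ^ k * (Kw Adj n).card) :
    ∃ K : ℝ, 1 ≤ K ∧ ∀ (n m : ℕ) (x : ℝ),
      (((Kw Adj n ×ˢ Kw Adj m).filter (fun p => (∀ y ∈ p.1, y ∈ p.2 → y = 0) ∧
        x ≤ (ct p.1 p.2 : ℝ))).card : ℝ) ≤
        K * Real.exp (-x / K) * ((Kw Adj n).card * (Kw Adj m).card) := by
  obtain ⟨K1, hK1, g1⟩ := obst (gr 2 2) M0 hM0 hs
  obtain ⟨K2, hK2, g2⟩ := obst (gr 3 0) 1 zero_le_one (fun n k => by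
    have : (gr 3 0).s = 0 := rfl
    rw [this]
    simp)
  obtain ⟨K0, hK0⟩ : ∃ K0 : ℝ, K0 = max K1 K2 := ⟨_, rfl⟩
  have hK01 : K1 ≤ K0 := by rw [hK0]; exact le_max_left _ _
  have hK02 : K2 ≤ K0 := by rw [hK0]; exact le_max_right _ _
  refine ⟨32928 * K0, by linarith, fun n m x => ?_⟩
  have hn : (0 : ℝ) ≤ (Kw Adj n).card := Nat.cast_nonneg _
  have hm : (0 : ℝ) ≤ (Kw Adj m).card := Nat.cast_nonneg _
  have hnm : (0 : ℝ) ≤ (Kw Adj n).card * (Kw Adj m).card := mul_nonneg hn hm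
  by_cases hx : x ≤ 0
  · have h1 : (((Kw Adj n ×ˢ Kw Adj m).filter (fun p => (∀ y ∈ p.1, y ∈ p.2 → y = 0) ∧
        x ≤ (ct p.1 p.2 : ℝ))).card : ℝ) ≤ (Kw Adj n).card * (Kw Adj m).card := by
      have := Finset.card_filter_le (Kw Adj n ×ˢ Kw Adj m)
        (fun p => (∀ y ∈ p.1, y ∈ p.2 → y = 0) ∧ x ≤ (ct p.1 p.2 : ℝ))
      rw [Finset.card_product] at this
      exact_mod_cast this
    have h2 : 1 ≤ Real.exp (-x / (32928 * K0)) := by
      apply Real.one_le_exp
      apply div_nonneg <;> linarith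
    have h3 : 1 ≤ 32928 * K0 * Real.exp (-x / (32928 * K0)) := by nlinarith
    nlinarith
  push Not at hx
  obtain ⟨y, hy⟩ : ∃ y : ℝ, y = x / 32928 - 1 := ⟨_, rfl⟩
  -- the four events
  obtain ⟨F, hF⟩ : ∃ F : Rl Adj → ℕ → ℕ → Finset (List (Fin 3 → ℤ) × List (Fin 3 → ℤ)),
      F = fun Z n m => (Kw Adj n ×ˢ Kw Adj m).filter (fun p => (∀ y ∈ p.1, y ∈ p.2 → y = 0) ∧
        y ≤ ((mv Z (st p.2) p.1).card : ℝ)) := ⟨_, rfl⟩
  have hFc : ∀ (Z : Rl Adj) (K : ℝ), 1 ≤ K → K ≤ K0 → (∀ (O : Set (Pt 3)) (n : ℕ) (J : ℝ),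
      (((Kw Adj n).filter (fun w => (∀ x ∈ w, x ∈ O → x = 0) ∧
        J ≤ ((mv Z O w).card : ℝ))).card : ℝ) ≤ K * Real.exp (-J / K) * (Kw Adj n).card) →
      ∀ n m : ℕ, ((F Z n m).card : ℝ) ≤
        K0 * (3 * Real.exp (-x / (32928 * K0))) * ((Kw Adj n).card * (Kw Adj m).card) := by
    intro Z K hK1' hKK g n m
    have e1 : (F Z n m).card = ∑ w' ∈ Kw Adj m, ((Kw Adj n).filter
        (fun w => (∀ x ∈ w, x ∈ st w' → x = 0) ∧ y ≤ ((mv Z (st w') w).card : ℝ))).card := by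
      rw [hF]
      simp only
      rw [Finset.card_filter, Finset.sum_product_right]
      refine Finset.sum_congr rfl fun w' _ => ?_
      rw [Finset.card_filter]
      exact Finset.sum_congr rfl fun w _ => if_congr Iff.rfl rfl rfl
    rw [e1]
    push_cast
    have e2 : ∀ w' ∈ Kw Adj m, (((Kw Adj n).filter
        (fun w => (∀ x ∈ w, x ∈ st w' → x = 0) ∧ y ≤ ((mv Z (st w') w).card : ℝ))).card : ℝ) ≤
        K * Real.exp (-y / K) * (Kw Adj n).card := fun w' _ => g (st w') n y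
    refine (Finset.sum_le_sum e2).trans ?_
    rw [Finset.sum_const, nsmul_eq_mul]
    have e3 : Real.exp (-y / K) ≤ 3 * Real.exp (-x / (32928 * K0)) := by
      have e4 : -y / K ≤ 1 + -x / (32928 * K0) := by
        rw [hy]
        have e5 : x / (32928 * K0) ≤ x / (32928 * K) := by
          apply div_le_div_of_nonneg_left hx.le (by positivity)
          linarith
        have e6 : -(x / 32928 - 1) / K = 1 / K - x / (32928 * K) := by
          field_simp
          ring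
        have e7 : 1 / K ≤ 1 := by
          rw [div_le_one (by linarith)]
          exact hK1'
        rw [e6, neg_div]
        linarith
      refine (Real.exp_le_exp.2 e4).trans ?_
      rw [Real.exp_add]
      refine mul_le_mul_of_nonneg_right ?_ (Real.exp_pos _).le
      linarith [Real.exp_one_lt_d9]
    have e8 : K * Real.exp (-y / K) ≤ K0 * (3 * Real.exp (-x / (32928 * K0))) :=
      mul_le_mul hKK e3 (Real.exp_pos _).le (by linarith)
    calc _ = K * Real.exp (-y / K) * ((Kw Adj n).card * (Kw Adj m).card) := by ring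
      _ ≤ _ := mul_le_mul_of_nonneg_right e8 (mul_nonneg (Nat.cast_nonneg _) (Nat.cast_nonneg _))
  have hsub : (Kw Adj n ×ˢ Kw Adj m).filter (fun p => (∀ y ∈ p.1, y ∈ p.2 → y = 0) ∧
      x ≤ (ct p.1 p.2 : ℝ)) ⊆ (F (gr 2 2) n m ∪ F (gr 3 0) n m) ∪
        ((F (gr 2 2) m n).image Prod.swap ∪ (F (gr 3 0) m n).image Prod.swap) := by
    rintro ⟨w, w'⟩ h
    rw [Finset.mem_filter, Finset.mem_product, (rl0 lat).mem_K, (rl0 lat).mem_K] at h
    obtain ⟨⟨h1, h2⟩, h3, h4⟩ := h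
    simp only at h1 h2 h3 h4
    by_contra hc
    rw [Finset.mem_union, Finset.mem_union, Finset.mem_union, not_or, not_or, not_or,
      Finset.mem_image, Finset.mem_image] at hc
    obtain ⟨⟨c1, c2⟩, c3, c4⟩ := hc
    rw [hF] at c1 c2 c3 c4
    simp only [Finset.mem_filter, Finset.mem_product, (rl0 lat).mem_K, not_and, not_le] at c1 c2
    have d1 := c1 ⟨h1, h2⟩ h3
    have d2 := c2 ⟨h1, h2⟩ h3
    have d3 : ((mv (gr 2 2) (st w) w').card : ℝ) < y := by
      by_contra hcc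
      push Not at hcc
      refine c3 ⟨(w', w), ?_, rfl⟩
      rw [Finset.mem_filter, Finset.mem_product, (rl0 lat).mem_K, (rl0 lat).mem_K]
      exact ⟨⟨h2, h1⟩, fun y a b => h3 y b a, hcc⟩
    have d4 : ((mv (gr 3 0) (st w) w').card : ℝ) < y := by
      by_contra hcc
      push Not at hcc
      refine c4 ⟨(w', w), ?_, rfl⟩
      rw [Finset.mem_filter, Finset.mem_product, (rl0 lat).mem_K, (rl0 lat).mem_K]
      exact ⟨⟨h2, h1⟩, fun y a b => h3 y b a, hcc⟩
    have d5 := ct_le h1.2 h2.2 h3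
    have d6 : (am w w').card ≤ (mv (gr 2 2) (st w') w).card + (mv (gr 3 0) (st w') w).card :=
      Finset.card_union_le _ _
    have d7 : (am w' w).card ≤ (mv (gr 2 2) (st w) w').card + (mv (gr 3 0) (st w) w').card :=
      Finset.card_union_le _ _
    have d8 : (ct w w' : ℝ) ≤ 6 * (3993 + 1372 * (((mv (gr 2 2) (st w') w).card +
        (mv (gr 3 0) (st w') w).card) + ((mv (gr 2 2) (st w) w').card +
        (mv (gr 3 0) (st w) w').card))) := by
      have : ct w w' ≤ 6 * (3993 + 1372 * (((mv (gr 2 2) (st w') w).card +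
        (mv (gr 3 0) (st w') w).card) + ((mv (gr 2 2) (st w) w').card +
        (mv (gr 3 0) (st w) w').card))) := by omega
      exact_mod_cast this
    rw [hy] at d1 d2 d3 d4
    linarith
  have hcard := Finset.card_le_card hsub
  have c1 := Finset.card_union_le (F (gr 2 2) n m ∪ F (gr 3 0) n m)
    ((F (gr 2 2) m n).image Prod.swap ∪ (F (gr 3 0) m n).image Prod.swap)
  have c2 := Finset.card_union_le (F (gr 2 2) n m) (F (gr 3 0) n m)
  have c3 := Finset.card_union_le ((F (gr 2 2) m n).image Prod.swap)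
    ((F (gr 3 0) m n).image Prod.swap)
  have c4 : ((F (gr 2 2) m n).image Prod.swap).card ≤ (F (gr 2 2) m n).card :=
    Finset.card_image_le
  have c5 : ((F (gr 3 0) m n).image Prod.swap).card ≤ (F (gr 3 0) m n).card :=
    Finset.card_image_le
  have c6 : (((Kw Adj n ×ˢ Kw Adj m).filter (fun p => (∀ y ∈ p.1, y ∈ p.2 → y = 0) ∧
      x ≤ (ct p.1 p.2 : ℝ))).card : ℝ) ≤ (F (gr 2 2) n m).card + (F (gr 3 0) n m).card +
        ((F (gr 2 2) m n).card + (F (gr 3 0) m n).card) := by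
    have := hcard.trans (c1.trans (Nat.add_le_add c2 (c3.trans (Nat.add_le_add c4 c5))))
    exact_mod_cast this
  have f1 := hFc _ K1 hK1 hK01 g1 n m
  have f2 := hFc _ K2 hK2 hK02 g2 n m
  have f3 := hFc _ K1 hK1 hK01 g1 m n
  have f4 := hFc _ K2 hK2 hK02 g2 m n
  have hpos : 0 ≤ K0 * Real.exp (-x / (32928 * K0)) * ((Kw Adj n).card * (Kw Adj m).card) := by
    exact mul_nonneg (mul_nonneg (by linarith) (Real.exp_pos _).le) hnm
  calc _ ≤ _ := c6
    _ ≤ 12 * (K0 * Real.exp (-x / (32928 * K0)) * ((Kw Adj n).card * (Kw Adj m).card)) := by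
      linarith
    _ ≤ _ := by linarith

end Pool.Agent.H829C
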