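import Pool.Agent.H829C.Grow

/-!
# All times at once; walks as functions
-/

set_option autoImplicit false

namespace Pool.Agent.H829C

open Finset H726.GD
open scoped Classical

theorem log_succ_le {K : ℝ} (hK : 0 ≤ K) {n : ℕ} (hn : 3 ≤ n) :
    Real.log ((n : ℝ) + 1) ≤ 6 * sg K n := by
  have hn' : (3 : ℝ) ≤ n := by exact_mod_cast hn
  have h1 : Real.log ((n : ℝ) + 1) ≤ ((n : ℝ) + 1) ^ (1 / 3 : ℝ) / (1 / 3) :=
    Real.log_le_rpow_div (by linarith) (by norm_num)
  have h2 : ((n : ℝ) + 1) ^ (1 / 3 : ℝ) ≤ 2 * (n : ℝ) ^ (1 / 3 : ℝ) := by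
    calc ((n : ℝ) + 1) ^ (1 / 3 : ℝ) ≤ (2 * (n : ℝ)) ^ (1 / 3 : ℝ) :=
          Real.rpow_le_rpow (by linarith) (by linarith) (by norm_num)
      _ = (2 : ℝ) ^ (1 / 3 : ℝ) * (n : ℝ) ^ (1 / 3 : ℝ) :=
          Real.mul_rpow (by norm_num) (by linarith)
      _ ≤ 2 * (n : ℝ) ^ (1 / 3 : ℝ) := by
          apply mul_le_mul_of_nonneg_right _ (by positivity)
          calc (2 : ℝ) ^ (1 / 3 : ℝ) ≤ 2 ^ (1 : ℝ) :=
                Real.rpow_le_rpow_of_exponent_le (by norm_num) (by norm_num)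
            _ = 2 := Real.rpow_one _
  have h3 : (n : ℝ) ^ (1 / 3 : ℝ) ≤ sg K n := by
    unfold sg
    have h4 : 1 ≤ Real.exp (K * Real.log (Real.log n) ^ 2) := Real.one_le_exp (by positivity)
    have h5 : 0 ≤ (n : ℝ) ^ (1 / 3 : ℝ) := by positivity
    nlinarith
  linarith

/-- Markov inequality for a finite sum of exponentials -/
theorem markov {α : Type*} (F : Finset α) (X : α → ℝ) (y B : ℝ)
    (h : ∑ v ∈ F, Real.exp (X v) ≤ B) :
    ((F.filter (fun v => y < X v)).card : ℝ) ≤ Real.exp (-y) * B := by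
  have h1 : ((F.filter (fun v => y < X v)).card : ℝ) * Real.exp y ≤ ∑ v ∈ F, Real.exp (X v) := by
    rw [← nsmul_eq_mul, ← Finset.sum_const]
    refine (Finset.sum_le_sum fun v hv => ?_).trans
      (Finset.sum_le_sum_of_subset_of_nonneg (Finset.filter_subset (fun v => y < X v) F)
        fun v _ _ => (Real.exp_pos _).le)
    rw [Finset.mem_filter] at hv
    exact (Real.exp_lt_exp.2 hv.2).le
  have h2 := h1.trans h
  rw [Real.exp_neg, inv_mul_eq_div, le_div_iff₀ (Real.exp_pos _)]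
  exact h2

theorem all_times : ∃ K : ℝ, 1 ≤ K ∧ (∀ p q : ℕ,
    ∑ v ∈ KK (p + q), Real.exp ((cp p v : ℝ) / K) ≤ K * ((KK p).card * (KK q).card)) ∧
    ∀ n : ℕ, 3 ≤ n → ∀ x : ℝ, 0 ≤ x →
      (((KK n).filter (fun v => ∃ t ≤ n, K * (sg K n + x) < cp t v)).card : ℝ) ≤
        Real.exp (-x) * (KK n).card := by
  obtain ⟨K1, hK1, g⟩ := exp_moment
  obtain ⟨K2, hK2, gr⟩ := growth
  have hK1p : 0 < K1 := by linarith
  obtain ⟨K, hK⟩ : ∃ K : ℝ, K = K1 * (7 + K1 + 2 * K2) := ⟨_, rfl⟩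
  have hKK1 : K1 ≤ K := by rw [hK]; nlinarith
  have hKK2 : K2 ≤ K := by rw [hK]; nlinarith
  refine ⟨K, by linarith, fun p q => ?_, fun n hn x hx => ?_⟩
  · have h1 : ∑ v ∈ KK (p + q), Real.exp ((cp p v : ℝ) / K) ≤
        ∑ v ∈ KK (p + q), Real.exp ((cp p v : ℝ) / K1) := by
      refine Finset.sum_le_sum fun v _ => Real.exp_le_exp.2 ?_
      exact div_le_div_of_nonneg_left (Nat.cast_nonneg _) hK1p hKK1
    refine h1.trans ((g p q).trans ?_)
    exact mul_le_mul_of_nonneg_right hKK1 (mul_nonneg (Nat.cast_nonneg _) (Nat.cast_nonneg _))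
  · obtain ⟨H, hH1, hH2, hH3⟩ := gr n hn
    have hHp : 0 < H := by linarith
    have hmu := one_le_mu
    obtain ⟨y, hy⟩ : ∃ y : ℝ, y = K * (sg K n + x) := ⟨_, rfl⟩
    have hmun := mu_pow_le n
    have hone : ∀ t ∈ Finset.range (n + 1), (((KK n).filter (fun v => y < cp t v)).card : ℝ) ≤
        Real.exp (-(y / K1)) * (K1 * H ^ 2 * (KK n).card) := by
      intro t ht
      rw [Finset.mem_range] at ht
      obtain ⟨q, rfl⟩ : ∃ q, n = t + q := ⟨n - t, by omega⟩
      have h1 := g t q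
      have h2 := hH2 t (by omega)
      have h3 := hH2 q (by omega)
      have h4 : K1 * (((KK t).card : ℝ) * (KK q).card) ≤ K1 * H ^ 2 * (KK (t + q)).card := by
        calc K1 * (((KK t).card : ℝ) * (KK q).card) ≤ K1 * ((H * mu ^ t) * (H * mu ^ q)) := by
              apply mul_le_mul_of_nonneg_left _ hK1p.le
              exact mul_le_mul h2 h3 (Nat.cast_nonneg _) (by positivity)
          _ = K1 * H ^ 2 * mu ^ (t + q) := by rw [pow_add]; ring
          _ ≤ _ := mul_le_mul_of_nonneg_left hmun (by positivity)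
      have h5 := markov (KK (t + q)) (fun v => (cp t v : ℝ) / K1) (y / K1) _ (h1.trans h4)
      have h6 : (KK (t + q)).filter (fun v => y < cp t v) =
          (KK (t + q)).filter (fun v => y / K1 < (cp t v : ℝ) / K1) := by
        refine Finset.filter_congr fun v _ => ?_
        rw [div_lt_div_iff_of_pos_right hK1p]
      rw [h6]
      exact h5
    have hsub : (KK n).filter (fun v => ∃ t ≤ n, K * (sg K n + x) < cp t v) ⊆
        (Finset.range (n + 1)).biUnion (fun t => (KK n).filter (fun v => y < cp t v)) := by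
      intro v hv
      rw [Finset.mem_filter] at hv
      obtain ⟨hv1, t, ht, hv2⟩ := hv
      rw [Finset.mem_biUnion]
      refine ⟨t, Finset.mem_range.2 (by omega), ?_⟩
      rw [Finset.mem_filter, hy]
      exact ⟨hv1, hv2⟩
    have h1 : (((KK n).filter (fun v => ∃ t ≤ n, K * (sg K n + x) < cp t v)).card : ℝ) ≤
        ∑ t ∈ Finset.range (n + 1), (((KK n).filter (fun v => y < cp t v)).card : ℝ) := by
      exact_mod_cast (Finset.card_le_card hsub).trans Finset.card_biUnion_le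
    refine h1.trans ((Finset.sum_le_sum hone).trans ?_)
    rw [Finset.sum_const, Finset.card_range, nsmul_eq_mul]
    push_cast
    have hc : (0 : ℝ) ≤ (KK n).card := Nat.cast_nonneg _
    have hsg := one_le_sg (K := K) (by linarith) hn
    have hsg2 := sg_mono hKK2 n
    have h2 : Real.log ((n : ℝ) + 1) + Real.log K1 + 2 * Real.log H + x ≤ y / K1 := by
      have e1 := log_succ_le (K := K) (by linarith) hn
      have e2 : Real.log K1 ≤ K1 := by
        have := Real.log_le_sub_one_of_pos hK1p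
        linarith
      have e3 : y / K1 = (7 + K1 + 2 * K2) * (sg K n + x) := by
        rw [hy, hK]
        field_simp
      rw [e3]
      nlinarith
    have h3 : ((n : ℝ) + 1) * (K1 * H ^ 2) * Real.exp (-(y / K1)) ≤ Real.exp (-x) := by
      have hn1 : (0 : ℝ) < (n : ℝ) + 1 := by positivity
      have e1 : ((n : ℝ) + 1) * (K1 * H ^ 2) =
          Real.exp (Real.log ((n : ℝ) + 1) + Real.log K1 + 2 * Real.log H) := by
        rw [Real.exp_add, Real.exp_add, Real.exp_log hn1, Real.exp_log hK1p, two_mul,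
          Real.exp_add, Real.exp_log hHp]
        ring
      rw [e1, ← Real.exp_add]
      apply Real.exp_le_exp.2
      linarith
    calc ((n : ℝ) + 1) * (Real.exp (-(y / K1)) * (K1 * H ^ 2 * (KK n).card))
        = (((n : ℝ) + 1) * (K1 * H ^ 2) * Real.exp (-(y / K1))) * (KK n).card := by ring
      _ ≤ _ := mul_le_mul_of_nonneg_right h3 hc

/-! ### functions -/

/-- the self-avoiding walks on `ℤ³` with `n` steps from the origin -/
def walks (n : ℕ) : Set (Fin (n + 1) → (Fin 3 → ℤ)) :=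
  {ω | ω 0 = 0 ∧ Function.Injective ω ∧ ∀ i : Fin n, ∑ j : Fin 3, |ω i.succ j - ω i.castSucc j| = 1}

theorem walks_card (n : ℕ) : (walks n).ncard = (KK n).card := by
  have h := H726.GD.count_filter (H726.GD.rl0 lat) n (fun _ => True)
  simp only [and_true, Finset.filter_true] at h
  rw [h]
  rfl

theorem walks_filter (n : ℕ) (Q : List (Fin 3 → ℤ) → Prop) :
    ((KK n).filter Q).card = (walks n ∩ {ω | Q (List.ofFn ω)}).ncard := by
  rw [H726.GD.count_filter (H726.GD.rl0 lat) n Q]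
  rfl

theorem walks_sum (n : ℕ) (g : List (Fin 3 → ℤ) → ℝ) :
    ∑ w ∈ KK n, g w = ∑ᶠ ω ∈ walks n, g (List.ofFn ω) :=
  H726.GD.fin_sum lat n g

/-- contacts between the past and the future of the time `t` -/
noncomputable def contacts {n : ℕ} (t : ℕ) (ω : Fin (n + 1) → (Fin 3 → ℤ)) : ℕ :=
  Set.ncard {p : Fin (n + 1) × Fin (n + 1) | p.1.1 < t ∧ t < p.2.1 ∧
    ∑ j : Fin 3, |ω p.2 j - ω p.1 j| = 1}

theorem cp_ofFn {n : ℕ} (t : ℕ) {ω : Fin (n + 1) → (Fin 3 → ℤ)} (hω : Function.Injective ω) :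
    cp t (List.ofFn ω) = contacts t ω := by
  unfold cp contacts
  rw [← Set.ncard_coe_finset]
  have hinj : Function.Injective (fun p : Fin (n + 1) × Fin (n + 1) => (ω p.1, ω p.2)) := by
    rintro ⟨a, b⟩ ⟨c, d⟩ h
    simp only [Prod.mk.injEq] at h
    exact Prod.ext (hω h.1) (hω h.2)
  rw [← Set.ncard_image_of_injective _ hinj]
  congr 1
  ext ⟨x, y⟩
  simp only [Finset.coe_filter, Finset.mem_product, List.mem_toFinset, Set.mem_setOf_eq,
    Set.mem_image, Prod.exists, Prod.mk.injEq]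
  constructor
  · rintro ⟨⟨h1, h2⟩, h3⟩
    rw [List.mem_take_iff_getElem] at h1
    rw [List.mem_drop_iff_getElem] at h2
    obtain ⟨i, hi, rfl⟩ := h1
    obtain ⟨j, hj, rfl⟩ := h2
    rw [List.length_ofFn] at hi hj
    rw [List.getElem_ofFn, List.getElem_ofFn] at h3
    refine ⟨⟨i, by omega⟩, ⟨t + 1 + j, by omega⟩, ⟨?_, ?_, h3⟩, ?_, ?_⟩
    · show i < t
      omega
    · show t < t + 1 + j
      omega
    · rw [List.getElem_ofFn]
    · rw [List.getElem_ofFn]
  · rintro ⟨i, j, ⟨h1, h2, h3⟩, rfl, rfl⟩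
    refine ⟨⟨?_, ?_⟩, h3⟩
    · rw [List.mem_take_iff_getElem]
      refine ⟨i.1, by rw [List.length_ofFn]; omega, by rw [List.getElem_ofFn]⟩
    · rw [List.mem_drop_iff_getElem]
      refine ⟨j.1 - (t + 1), by rw [List.length_ofFn]; have := j.2; omega, ?_⟩
      rw [List.getElem_ofFn]
      congr 1
      apply Fin.ext
      show t + 1 + (j.1 - (t + 1)) = j.1
      omega

end Pool.Agent.H829C
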