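import Pool.Agent.H829C.Times

/-!
# Contacts at one scale
-/

set_option autoImplicit false

namespace Pool.Agent.H829C

open Finset H726.GD
open scoped Classical

/-- the contacts between the past and the future of the time `p` -/
noncomputable def CS (p : ℕ) (u : List (Fin 3 → ℤ)) : Finset ((Fin 3 → ℤ) × (Fin 3 → ℤ)) :=
  ((u.take p).toFinset ×ˢ (u.drop (p + 1)).toFinset).filter (fun x => Adj x.1 x.2)

theorem card_CS (p : ℕ) (u : List (Fin 3 → ℤ)) : (CS p u).card = cp p u := rfl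

theorem cp_map (p : ℕ) (u : List (Fin 3 → ℤ)) (c : Fin 3 → ℤ) :
    cp p (u.map (fun x => x - c)) = cp p u := by
  unfold cp
  rw [← List.map_take, ← List.map_drop]
  symm
  refine Finset.card_bij (fun x _ => (x.1 - c, x.2 - c)) ?_ ?_ ?_
  · rintro ⟨x, y⟩ h
    simp only [Finset.mem_filter, Finset.mem_product, List.mem_toFinset, List.mem_map] at h ⊢
    exact ⟨⟨⟨x, h.1.1, rfl⟩, ⟨y, h.1.2, rfl⟩⟩, adj_sub.2 h.2⟩
  · rintro ⟨x, y⟩ - ⟨x', y'⟩ - h
    simp only [Prod.mk.injEq] at h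
    exact Prod.ext (sub_inj c h.1) (sub_inj c h.2)
  · rintro ⟨x, y⟩ h
    simp only [Finset.mem_filter, Finset.mem_product, List.mem_toFinset, List.mem_map] at h
    obtain ⟨⟨⟨a, ha, rfl⟩, ⟨b, hb, rfl⟩⟩, h2⟩ := h
    refine ⟨(a, b), ?_, rfl⟩
    simp only [Finset.mem_filter, Finset.mem_product, List.mem_toFinset]
    exact ⟨⟨ha, hb⟩, adj_sub.1 h2⟩

theorem cp_short {p : ℕ} {u : List (Fin 3 → ℤ)} (h : u.length ≤ p + 1) : cp p u = 0 := by
  unfold cp
  rw [List.drop_eq_nil_of_le h]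
  simp

/-- the sum over the windows -/
noncomputable def W (m r : ℕ) (v : List (Fin 3 → ℤ)) : ℕ :=
  ∑ k ∈ Finset.range r, cp (2 * m) ((v.drop (4 * m * k)).take (4 * m + 1))

theorem W_map (m r : ℕ) (v : List (Fin 3 → ℤ)) (c : Fin 3 → ℤ) :
    W m r (v.map (fun x => x - c)) = W m r v := by
  unfold W
  refine Finset.sum_congr rfl fun k _ => ?_
  rw [← List.map_drop, ← List.map_take, cp_map]

theorem W_tl (m r a : ℕ) (v : List (Fin 3 → ℤ)) : W m r (tl a v) = W m r (v.drop a) := by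
  unfold tl
  rw [W_map]

theorem W_succ (m r : ℕ) (v : List (Fin 3 → ℤ)) :
    W m (r + 1) v = cp (2 * m) (v.take (4 * m + 1)) + W m r (tl (4 * m) v) := by
  rw [W_tl]
  unfold W
  rw [Finset.sum_range_succ', add_comm]
  congr 1
  refine Finset.sum_congr rfl fun k _ => ?_
  rw [List.drop_drop]
  congr 3
  ring

theorem W_short (m r : ℕ) {u : List (Fin 3 → ℤ)} (h : u.length ≤ 1) : W m r u = 0 := by
  unfold W
  refine Finset.sum_eq_zero fun k _ => cp_short ?_
  rw [List.length_take, List.length_drop]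
  omega

section

variable {K1 : ℝ} (hK1 : 1 ≤ K1) (g : ∀ p q : ℕ,
    ∑ v ∈ KK (p + q), Real.exp ((cp p v : ℝ) / K1) ≤ K1 * ((KK p).card * (KK q).card))
  {m : ℕ} {H : ℝ} (hH1 : 1 ≤ H) (hH2 : ∀ j ≤ 4 * m, ((KK j).card : ℝ) ≤ H * mu ^ j)

include hK1 g hH1 hH2

theorem one_win {p n : ℕ} (hn : n ≤ 4 * m) :
    ∑ v ∈ KK n, Real.exp ((cp p v : ℝ) / K1) ≤ K1 * H ^ 2 * mu ^ n := by
  have hmu := one_le_mu
  have hmun : 0 ≤ mu ^ n := by positivity
  rcases Nat.lt_or_ge n p with h | h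
  · have h1 : ∑ v ∈ KK n, Real.exp ((cp p v : ℝ) / K1) = ((KK n).card : ℝ) := by
      rw [← nsmul_one, ← Finset.sum_const]
      refine Finset.sum_congr rfl fun v hv => ?_
      rw [mem_KK] at hv
      rw [cp_short (by omega)]
      simp
    rw [h1]
    refine (hH2 n hn).trans (mul_le_mul_of_nonneg_right ?_ hmun)
    nlinarith
  · obtain ⟨q, rfl⟩ : ∃ q, n = p + q := ⟨n - p, by omega⟩
    refine (g p q).trans ?_
    calc K1 * (((KK p).card : ℝ) * (KK q).card) ≤ K1 * ((H * mu ^ p) * (H * mu ^ q)) := by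
          apply mul_le_mul_of_nonneg_left _ (by linarith)
          exact mul_le_mul (hH2 p (by omega)) (hH2 q (by omega)) (Nat.cast_nonneg _)
            (by positivity)
      _ = _ := by rw [pow_add]; ring

theorem peel {a p n : ℕ} (ha : a ≤ 4 * m) (hp : p ≤ a) {h : List (Fin 3 → ℤ) → ℝ}
    (h0 : ∀ u, 0 ≤ h u) (h1 : ∀ u, u.length ≤ 1 → h u = 1) {B : ℝ} (hB1 : 1 ≤ B)
    (hB : a ≤ n → ∑ u ∈ KK (n - a), h u ≤ B * mu ^ (n - a)) :
    ∑ v ∈ KK n, Real.exp ((cp p (v.take (a + 1)) : ℝ) / K1) * h (tl a v) ≤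
      K1 * H ^ 2 * B * mu ^ n := by
  have hmu := one_le_mu
  rcases Nat.lt_or_ge n a with hna | hna
  · have e1 : ∑ v ∈ KK n, Real.exp ((cp p (v.take (a + 1)) : ℝ) / K1) * h (tl a v) =
        ∑ v ∈ KK n, Real.exp ((cp p v : ℝ) / K1) := by
      refine Finset.sum_congr rfl fun v hv => ?_
      rw [mem_KK] at hv
      rw [List.take_of_length_le (by omega), h1, mul_one]
      unfold tl
      rw [List.length_map, List.length_drop]
      omega
    rw [e1]
    refine (one_win hK1 g hH1 hH2 (hna.le.trans ha)).trans ?_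
    have : 0 ≤ K1 * H ^ 2 * mu ^ n := by positivity
    nlinarith
  · obtain ⟨b, rfl⟩ : ∃ b, n = a + b := ⟨n - a, by omega⟩
    have e1 := hB hna
    rw [Nat.add_sub_cancel_left] at e1
    refine (sum_split a b (fun u => Real.exp ((cp p u : ℝ) / K1)) h
      (fun u => (Real.exp_pos _).le) h0).trans ?_
    calc _ ≤ (K1 * H ^ 2 * mu ^ a) * (B * mu ^ b) :=
          mul_le_mul (one_win hK1 g hH1 hH2 ha) e1 (Finset.sum_nonneg fun u _ => h0 u)
            (by positivity)
      _ = _ := by rw [pow_add]; ring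

theorem W_bound : ∀ r n : ℕ, n ≤ 4 * m * r → ∑ v ∈ KK n, Real.exp ((W m r v : ℝ) / K1) ≤
    (K1 * H ^ 2) ^ r * H * mu ^ n := by
  intro r
  induction r with
  | zero =>
    intro n hn
    have hn0 : n = 0 := by omega
    subst hn0
    have h1 : ∑ v ∈ KK 0, Real.exp ((W m 0 v : ℝ) / K1) = ((KK 0).card : ℝ) := by
      rw [← nsmul_one, ← Finset.sum_const]
      refine Finset.sum_congr rfl fun v _ => ?_
      unfold W
      simp
    rw [h1]
    have := hH2 0 (by omega)
    linarith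
  | succ r ih =>
    intro n hn
    have h1 : ∑ v ∈ KK n, Real.exp ((W m (r + 1) v : ℝ) / K1) =
        ∑ v ∈ KK n, Real.exp ((cp (2 * m) (v.take (4 * m + 1)) : ℝ) / K1) *
          Real.exp ((W m r (tl (4 * m) v) : ℝ) / K1) := by
      refine Finset.sum_congr rfl fun v _ => ?_
      rw [W_succ, ← Real.exp_add]
      congr 1
      push_cast
      ring
    rw [h1]
    have hKH : 1 ≤ K1 * H ^ 2 := by nlinarith
    refine (peel hK1 g hH1 hH2 (a := 4 * m) (p := 2 * m) (n := n) le_rfl (by omega)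
      (h := fun u => Real.exp ((W m r u : ℝ) / K1)) (fun u => (Real.exp_pos _).le) ?_
      (B := (K1 * H ^ 2) ^ r * H) ?_ ?_).trans (le_of_eq ?_)
    · intro u hu
      rw [W_short m r hu]
      simp
    · have : 1 ≤ (K1 * H ^ 2) ^ r := one_le_pow₀ hKH
      nlinarith
    · intro hn'
      apply ih
      rw [Nat.mul_succ] at hn
      omega
    · rw [pow_succ]; ring

/-- the exponential moment for one class of windows -/
theorem class_bound {a p r n : ℕ} (ha : a ≤ 4 * m) (hp : p ≤ a) (hn : n ≤ 4 * m * r) :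
    ∑ v ∈ KK n, Real.exp (((cp p (v.take (a + 1)) + W m r (v.drop a) : ℕ) : ℝ) / K1) ≤
      (K1 * H ^ 2) ^ (r + 1) * H * (KK n).card := by
  have h1 : ∑ v ∈ KK n, Real.exp (((cp p (v.take (a + 1)) + W m r (v.drop a) : ℕ) : ℝ) / K1) =
      ∑ v ∈ KK n, Real.exp ((cp p (v.take (a + 1)) : ℝ) / K1) *
        Real.exp ((W m r (tl a v) : ℝ) / K1) := by
    refine Finset.sum_congr rfl fun v _ => ?_
    rw [W_tl, ← Real.exp_add]
    congr 1
    push_cast
    ring
  rw [h1]
  have hKH : 1 ≤ K1 * H ^ 2 := by nlinarith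
  have hpow : 1 ≤ (K1 * H ^ 2) ^ r := one_le_pow₀ hKH
  refine (peel hK1 g hH1 hH2 (a := a) (p := p) (n := n) ha hp
    (h := fun u => Real.exp ((W m r u : ℝ) / K1)) (fun u => (Real.exp_pos _).le) ?_
    (B := (K1 * H ^ 2) ^ r * H) ?_ ?_).trans ?_
  · intro u hu
    rw [W_short m r hu]
    simp
  · nlinarith
  · intro hn'
    apply W_bound hK1 g hH1 hH2
    omega
  · have h2 := mu_pow_le n
    have h3 : 0 ≤ (K1 * H ^ 2) ^ (r + 1) * H := by positivity
    calc K1 * H ^ 2 * ((K1 * H ^ 2) ^ r * H) * mu ^ n = (K1 * H ^ 2) ^ (r + 1) * H * mu ^ n := by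
          rw [pow_succ]; ring
      _ ≤ _ := mul_le_mul_of_nonneg_left h2 h3

end

/-- Jensen inequality -/
theorem jensen {α : Type*} (F : Finset α) (Y : α → ℝ) {K B : ℝ} (hK : 0 < K) (hB : 0 < B)
    (h : ∑ v ∈ F, Real.exp (Y v / K) ≤ B * F.card) : ∑ v ∈ F, Y v ≤ K * Real.log B * F.card := by
  have h1 : ∀ v ∈ F, Y v ≤ K * Real.log B + K * (Real.exp (Y v / K) / B - 1) := by
    intro v _
    have h2 := Real.add_one_le_exp (Y v / K - Real.log B)
    rw [Real.exp_sub, Real.exp_log hB] at h2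
    have h3 : Y v = K * (Y v / K) := by field_simp
    have h4 : K * (Y v / K) ≤ K * (Real.log B + (Real.exp (Y v / K) / B - 1)) :=
      mul_le_mul_of_nonneg_left (by linarith) hK.le
    linarith
  refine (Finset.sum_le_sum h1).trans ?_
  rw [Finset.sum_add_distrib, Finset.sum_const, nsmul_eq_mul, ← Finset.mul_sum,
    Finset.sum_sub_distrib, Finset.sum_const, nsmul_eq_mul, mul_one, ← Finset.sum_div]
  have h5 : (∑ v ∈ F, Real.exp (Y v / K)) / B ≤ F.card := by
    rw [div_le_iff₀ hB, mul_comm]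
    exact h
  have h6 : K * ((∑ v ∈ F, Real.exp (Y v / K)) / B - F.card) ≤ 0 :=
    mul_nonpos_of_nonneg_of_nonpos hK.le (by linarith)
  linarith

/-- the contacts at scale `m` -/
noncomputable def FS (m : ℕ) (v : List (Fin 3 → ℤ)) : Finset ((Fin 3 → ℤ) × (Fin 3 → ℤ)) :=
  (v.toFinset ×ˢ v.toFinset).filter (fun x => ∃ i j : ℕ, i + m < j ∧ j ≤ i + 2 * m ∧
    v[i]? = some x.1 ∧ v[j]? = some x.2 ∧ Adj x.1 x.2)

theorem mem_CS {v : List (Fin 3 → ℤ)} {s l p i j : ℕ} {x y : Fin 3 → ℤ} (hx : v[i]? = some x)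
    (hy : v[j]? = some y) (hxy : Adj x y) (h1 : s ≤ i) (h2 : i < s + p) (h3 : s + p < j)
    (h4 : j < s + l) : (x, y) ∈ CS p ((v.drop s).take l) := by
  unfold CS
  rw [Finset.mem_filter, Finset.mem_product, List.mem_toFinset, List.mem_toFinset]
  refine ⟨⟨?_, ?_⟩, hxy⟩
  · rw [List.mem_iff_getElem?]
    refine ⟨i - s, ?_⟩
    rw [List.getElem?_take, List.getElem?_take, List.getElem?_drop, if_pos (by omega),
      if_pos (by omega)]
    rw [show s + (i - s) = i by omega]
    exact hx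
  · rw [List.mem_iff_getElem?]
    refine ⟨j - s - (p + 1), ?_⟩
    rw [List.getElem?_drop, List.getElem?_take, List.getElem?_drop, if_pos (by omega)]
    rw [show s + (p + 1 + (j - s - (p + 1))) = j by omega]
    exact hy

/-- the cover of the contacts at scale `m` by four classes of windows -/
theorem cover {m r n : ℕ} (hm : 1 ≤ m) {v : List (Fin 3 → ℤ)} (hv : v.length = n + 1)
    (hn : n ≤ 4 * m * r) : (FS m v).card ≤ (cp 0 (v.take (0 + 1)) + W m r (v.drop 0)) +
      (cp 0 (v.take (m + 1)) + W m r (v.drop m)) +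
      (cp 0 (v.take (2 * m + 1)) + W m r (v.drop (2 * m))) +
      (cp m (v.take (3 * m + 1)) + W m r (v.drop (3 * m))) := by
  obtain ⟨G, hG⟩ : ∃ G : ℕ → Finset ((Fin 3 → ℤ) × (Fin 3 → ℤ)), G = fun a =>
    (Finset.range r).biUnion (fun k => CS (2 * m) (((v.drop a).drop (4 * m * k)).take
      (4 * m + 1))) := ⟨_, rfl⟩
  have hGc : ∀ a, (G a).card ≤ W m r (v.drop a) := by
    intro a
    rw [hG]
    exact Finset.card_biUnion_le
  have hsub : FS m v ⊆ CS m (v.take (3 * m + 1)) ∪ (G 0 ∪ G m ∪ G (2 * m) ∪ G (3 * m)) := by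
    rintro ⟨x, y⟩ h
    unfold FS at h
    rw [Finset.mem_filter] at h
    obtain ⟨-, i, j, h1, h2, hx, hy, hxy⟩ := h
    simp only at hx hy hxy
    have hjn : j < n + 1 := by
      by_contra hc
      rw [List.getElem?_eq_none (by omega)] at hy
      exact absurd hy (by simp)
    have hq1 : i < (i / m + 1) * m := by
      have := Nat.lt_mul_div_succ i hm
      rw [mul_comm]
      exact this
    have hq2 : i / m * m ≤ i := Nat.div_mul_le_self i m
    rw [Finset.mem_union]
    rcases Nat.eq_zero_or_pos (i / m) with hq | hq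
    · left
      have h3 := mem_CS (s := 0) (l := 3 * m + 1) (p := m) hx hy hxy (Nat.zero_le _)
        (by rw [hq] at hq1; omega) (by omega) (by rw [hq] at hq1; omega)
      simpa using h3
    · right
      obtain ⟨q, hq'⟩ : ∃ q, i / m = q + 1 := ⟨i / m - 1, by omega⟩
      rw [hq'] at hq1 hq2
      have hq3 : q * m + m ≤ i := by rw [Nat.succ_mul] at hq2; exact hq2
      have hq4 : i < q * m + 2 * m := by
        have : (q + 1 + 1) * m = q * m + 2 * m := by ring
        omega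
      obtain ⟨k, e, he, hqk⟩ : ∃ k e, e < 4 ∧ q = 4 * k + e :=
        ⟨q / 4, q % 4, Nat.mod_lt _ (by norm_num), (Nat.div_add_mod q 4).symm⟩
      have hqm : q * m = e * m + 4 * m * k := by rw [hqk]; ring
      have hk : k < r := by
        by_contra hc
        push Not at hc
        have : 4 * m * r ≤ 4 * m * k := Nat.mul_le_mul_left _ hc
        omega
      have key : (x, y) ∈ G (e * m) := by
        rw [hG]
        simp only
        rw [Finset.mem_biUnion]
        refine ⟨k, Finset.mem_range.2 hk, ?_⟩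
        rw [List.drop_drop]
        exact mem_CS hx hy hxy (by omega) (by omega) (by omega) (by omega)
      rw [Finset.mem_union, Finset.mem_union, Finset.mem_union]
      interval_cases e
      · rw [Nat.zero_mul] at key; tauto
      · rw [Nat.one_mul] at key; tauto
      · tauto
      · tauto
  have h1 := Finset.card_le_card hsub
  have h2 := Finset.card_union_le (CS m (v.take (3 * m + 1))) (G 0 ∪ G m ∪ G (2 * m) ∪ G (3 * m))
  have h3 := Finset.card_union_le (G 0 ∪ G m ∪ G (2 * m)) (G (3 * m))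
  have h4 := Finset.card_union_le (G 0 ∪ G m) (G (2 * m))
  have h5 := Finset.card_union_le (G 0) (G m)
  have h6 := hGc 0
  have h7 := hGc m
  have h8 := hGc (2 * m)
  have h9 := hGc (3 * m)
  rw [card_CS] at h2
  omega

/-- **One scale.** -/
theorem one_scale : ∃ K : ℝ, 1 ≤ K ∧ ∀ n m : ℕ, 3 ≤ m →
    ∑ v ∈ KK n, ((FS m v).card : ℝ) ≤ K * ((n : ℝ) / m * sg K m) * (KK n).card := by
  obtain ⟨K1, hK1, g⟩ := exp_moment
  obtain ⟨K2, hK2, gr⟩ := growth
  have hK1p : 0 < K1 := by linarith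
  obtain ⟨K, hK⟩ : ∃ K : ℝ, K = 16 * K1 * (K1 + 2 * K2) := ⟨_, rfl⟩
  have hKK2 : K2 ≤ K := by rw [hK]; nlinarith
  refine ⟨K, by linarith, fun n m hm => ?_⟩
  have hc : (0 : ℝ) ≤ (KK n).card := Nat.cast_nonneg _
  have hm0 : (0 : ℝ) < m := by
    have : (3 : ℝ) ≤ m := by exact_mod_cast hm
    linarith
  have hsg := one_le_sg (K := K) (by linarith) hm
  rcases Nat.lt_or_ge n (m + 1) with hnm | hnm
  · have h1 : ∑ v ∈ KK n, ((FS m v).card : ℝ) = 0 := by
      refine Finset.sum_eq_zero fun v hv => ?_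
      rw [mem_KK] at hv
      rw [Nat.cast_eq_zero, Finset.card_eq_zero]
      unfold FS
      rw [Finset.filter_eq_empty_iff]
      rintro ⟨x, y⟩ - ⟨i, j, h1, h2, h3, h4, -⟩
      rw [List.getElem?_eq_none (by omega)] at h4
      exact absurd h4 (by simp)
    rw [h1]
    have : (0 : ℝ) ≤ (n : ℝ) / m := by positivity
    have h2 : 0 ≤ K * ((n : ℝ) / m * sg K m) := by
      apply mul_nonneg (by linarith)
      exact mul_nonneg this (by linarith)
    exact mul_nonneg h2 hc
  obtain ⟨H, hH1, hH2, hH3⟩ := gr m hm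
  obtain ⟨r, hr⟩ : ∃ r, r = n / (4 * m) + 1 := ⟨_, rfl⟩
  have hnr : n ≤ 4 * m * r := by
    rw [hr]
    exact (Nat.lt_mul_div_succ n (by omega)).le
  have hKH : 1 ≤ K1 * H ^ 2 := by nlinarith
  obtain ⟨B, hB⟩ : ∃ B : ℝ, B = (K1 * H ^ 2) ^ (r + 1) * H := ⟨_, rfl⟩
  have hBp : 0 < B := by rw [hB]; positivity
  have hcl : ∀ a p, a ≤ 4 * m → p ≤ a →
      ∑ v ∈ KK n, ((cp p (v.take (a + 1)) + W m r (v.drop a) : ℕ) : ℝ) ≤
        K1 * Real.log B * (KK n).card := by
    intro a p ha hp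
    refine jensen (KK n) _ hK1p hBp ?_
    rw [hB]
    exact class_bound hK1 g hH1 hH2 ha hp hnr
  have h1 : ∑ v ∈ KK n, ((FS m v).card : ℝ) ≤ 4 * (K1 * Real.log B * (KK n).card) := by
    have e1 : ∑ v ∈ KK n, ((FS m v).card : ℝ) ≤ ∑ v ∈ KK n,
        (((cp 0 (v.take (0 + 1)) + W m r (v.drop 0) : ℕ) : ℝ) +
        ((cp 0 (v.take (m + 1)) + W m r (v.drop m) : ℕ) : ℝ) +
        ((cp 0 (v.take (2 * m + 1)) + W m r (v.drop (2 * m)) : ℕ) : ℝ) +
        ((cp m (v.take (3 * m + 1)) + W m r (v.drop (3 * m)) : ℕ) : ℝ)) := by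
      refine Finset.sum_le_sum fun v hv => ?_
      rw [mem_KK] at hv
      exact_mod_cast cover (by omega) hv.1 hnr
    refine e1.trans ?_
    rw [Finset.sum_add_distrib, Finset.sum_add_distrib, Finset.sum_add_distrib]
    have c1 := hcl 0 0 (by omega) (by omega)
    have c2 := hcl m 0 (by omega) (by omega)
    have c3 := hcl (2 * m) 0 (by omega) (by omega)
    have c4 := hcl (3 * m) m (by omega) (by omega)
    linarith
  refine h1.trans ?_
  have hlH : 0 ≤ Real.log H := Real.log_nonneg hH1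
  have hlK : Real.log K1 ≤ K1 := by
    have := Real.log_le_sub_one_of_pos hK1p
    linarith
  have hlK0 : 0 ≤ Real.log K1 := Real.log_nonneg hK1
  have hlog : Real.log B = ((r : ℝ) + 1) * (Real.log K1 + 2 * Real.log H) + Real.log H := by
    rw [hB, Real.log_mul (by positivity) (by positivity), Real.log_pow,
      Real.log_mul (by positivity) (by positivity), Real.log_pow]
    push_cast
    ring
  have hr1 : (r : ℝ) + 2 ≤ 4 * ((n : ℝ) / m) := by
    have e1 : (1 : ℝ) ≤ (n : ℝ) / m := by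
      rw [le_div_iff₀ hm0, one_mul]
      exact_mod_cast (show m ≤ n by omega)
    have e2 : (r : ℝ) ≤ (n : ℝ) / m / 4 + 1 := by
      rw [hr]
      push_cast
      have e3 : ((n / (4 * m) : ℕ) : ℝ) ≤ (n : ℝ) / ((4 * m : ℕ) : ℝ) := Nat.cast_div_le
      push_cast at e3
      have e4 : (n : ℝ) / (4 * m) = (n : ℝ) / m / 4 := by
        field_simp
      linarith
    linarith
  have hsg2 := sg_mono hKK2 m
  have hL : Real.log K1 + 2 * Real.log H ≤ (K1 + 2 * K2) * sg K m := by
    have e1 : Real.log H ≤ K2 * sg K m := hH3.trans (mul_le_mul_of_nonneg_left hsg2 (by linarith))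
    have e2 : K1 ≤ K1 * sg K m := by nlinarith
    nlinarith
  have hlogB : Real.log B ≤ 4 * ((n : ℝ) / m) * ((K1 + 2 * K2) * sg K m) := by
    rw [hlog]
    calc ((r : ℝ) + 1) * (Real.log K1 + 2 * Real.log H) + Real.log H
        ≤ ((r : ℝ) + 2) * (Real.log K1 + 2 * Real.log H) := by nlinarith
      _ ≤ _ := mul_le_mul hr1 hL (by linarith) (by positivity)
  calc 4 * (K1 * Real.log B * (KK n).card)
      ≤ 4 * (K1 * (4 * ((n : ℝ) / m) * ((K1 + 2 * K2) * sg K m)) * (KK n).card) := by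
        gcongr
    _ = K * ((n : ℝ) / m * sg K m) * (KK n).card := by rw [hK]; ring

end Pool.Agent.H829C
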